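import Pool.Agent.H93Z.Cens.Dir

/-! The censored walk acting on measures, and its coupling with the free walk. -/

set_option autoImplicit false
set_option linter.unusedSectionVars false

namespace Pool.Agent.H93Z.Cens

open Real Finset

variable {ι : Type*} [Fintype ι] [DecidableEq ι]

/-- The censored flip, as an involution of the cube. -/
def cf (A : Finset (ι → Bool)) (k : ι) (z : ι → Bool) : ι → Bool :=
  if z ∈ A ∧ fl z k ∈ A then fl z k else z

lemma cf_cf (A : Finset (ι → Bool)) (k : ι) (z : ι → Bool) : cf A k (cf A k z) = z := by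
  unfold cf
  by_cases h : z ∈ A ∧ fl z k ∈ A
  · simp [h.1, h.2]
  · simp [h]

lemma cf_mem (A : Finset (ι → Bool)) (k : ι) (z : ι → Bool) : cf A k z ∈ A ↔ z ∈ A := by
  unfold cf
  by_cases h : z ∈ A ∧ fl z k ∈ A
  · simp [h.1, h.2]
  · simp [h]

lemma sum_cf (A : Finset (ι → Bool)) (k : ι) (f : (ι → Bool) → ℝ) :
    ∑ z, f (cf A k z) = ∑ z, f z :=
  Equiv.sum_comp (Function.Involutive.toPerm (cf A k) (cf_cf A k)) f

lemma Pk_eq (A : Finset (ι → Bool)) (k : ι) (ν : (ι → Bool) → ℝ) (z : ι → Bool) :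
    Pk A k ν z = (ν z + ν (cf A k z)) / 2 := by
  unfold Pk cf
  split_ifs <;> simp

/-- One step of the lazy censored walk, acting on measures. -/
noncomputable def PL (A : Finset (ι → Bool)) : ((ι → Bool) → ℝ) →ₗ[ℝ] ((ι → Bool) → ℝ) where
  toFun ν := fun z => (∑ k, Pk A k ν z) / Fintype.card ι
  map_add' ν ν' := by
    funext z
    simp only [Pk_eq, Pi.add_apply]
    rw [← add_div, ← Finset.sum_add_distrib]
    congr 1
    exact Finset.sum_congr rfl fun k _ => by ring
  map_smul' c ν := by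
    funext z
    simp only [Pk_eq, Pi.smul_apply, smul_eq_mul, RingHom.id_apply]
    rw [← mul_div_assoc, Finset.mul_sum]
    congr 1
    exact Finset.sum_congr rfl fun k _ => by ring

lemma PL_apply (A : Finset (ι → Bool)) (ν : (ι → Bool) → ℝ) (z : ι → Bool) :
    PL A ν z = (∑ k, Pk A k ν z) / Fintype.card ι := rfl

lemma Pk_nonneg (A : Finset (ι → Bool)) (k : ι) {ν : (ι → Bool) → ℝ} (h : ∀ z, 0 ≤ ν z)
    (z : ι → Bool) : 0 ≤ Pk A k ν z := by
  rw [Pk_eq]; have := h z; have := h (cf A k z); positivity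

lemma PL_nonneg (A : Finset (ι → Bool)) {ν : (ι → Bool) → ℝ} (h : ∀ z, 0 ≤ ν z)
    (z : ι → Bool) : 0 ≤ PL A ν z :=
  div_nonneg (Finset.sum_nonneg fun k _ => Pk_nonneg A k h z) (Nat.cast_nonneg _)

lemma PL_supp (A : Finset (ι → Bool)) {ν : (ι → Bool) → ℝ} (h : ∀ z, z ∉ A → ν z = 0)
    (z : ι → Bool) (hz : z ∉ A) : PL A ν z = 0 := by
  simp [PL_apply, Pk, hz, h z hz]

lemma pow_succ_apply {M : Type*} [AddCommGroup M] [Module ℝ M] (f : M →ₗ[ℝ] M) (t : ℕ) (m : M) :
    (f ^ (t + 1)) m = f ((f ^ t) m) := by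
  rw [pow_succ']; rfl

lemma pow_add_apply {M : Type*} [AddCommGroup M] [Module ℝ M] (f : M →ₗ[ℝ] M) (s t : ℕ) (m : M) :
    (f ^ (s + t)) m = (f ^ s) ((f ^ t) m) := by
  rw [pow_add]; rfl

lemma PLp_nonneg (A : Finset (ι → Bool)) {ν : (ι → Bool) → ℝ} (h : ∀ z, 0 ≤ ν z) (t : ℕ) :
    ∀ z, 0 ≤ (PL A ^ t) ν z := by
  induction t with
  | zero => simpa using h
  | succ t ih => rw [pow_succ_apply]; exact PL_nonneg A ih

lemma PLp_supp (A : Finset (ι → Bool)) {ν : (ι → Bool) → ℝ} (h : ∀ z, z ∉ A → ν z = 0) (t : ℕ) :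
    ∀ z, z ∉ A → (PL A ^ t) ν z = 0 := by
  induction t with
  | zero => simpa using h
  | succ t ih => rw [pow_succ_apply]; exact PL_supp A ih

variable [Nonempty ι]

lemma card_pos' : (0 : ℝ) < Fintype.card ι := by exact_mod_cast Fintype.card_pos

lemma mass_PL (A : Finset (ι → Bool)) (ν : (ι → Bool) → ℝ) : mass (PL A ν) = mass ν := by
  have hn := card_pos' (ι := ι)
  unfold mass
  simp only [PL_apply, Pk_eq]
  rw [← Finset.sum_div, Finset.sum_comm]
  have : ∀ k : ι, ∑ z, (ν z + ν (cf A k z)) / 2 = ∑ z, ν z := by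
    intro k
    rw [← Finset.sum_div, Finset.sum_add_distrib, sum_cf A k ν]; ring
  simp only [this, Finset.sum_const, Finset.card_univ, nsmul_eq_mul]
  field_simp

lemma mass_PLp (A : Finset (ι → Bool)) (ν : (ι → Bool) → ℝ) (t : ℕ) :
    mass ((PL A ^ t) ν) = mass ν := by
  induction t with
  | zero => simp
  | succ t ih => rw [pow_succ_apply, mass_PL, ih]

lemma l1_PL (A : Finset (ι → Bool)) (ν : (ι → Bool) → ℝ) : ∑ z, |PL A ν z| ≤ ∑ z, |ν z| := by
  have h : ∀ z, |PL A ν z| ≤ PL A (fun w => |ν w|) z := by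
    intro z
    simp only [PL_apply, Pk_eq]
    rw [abs_div, abs_of_pos (card_pos' (ι := ι))]
    refine div_le_div_of_nonneg_right ?_ (card_pos' (ι := ι)).le
    refine (Finset.abs_sum_le_sum_abs _ _).trans (Finset.sum_le_sum fun k _ => ?_)
    rw [abs_div, abs_two]
    exact div_le_div_of_nonneg_right (abs_add_le _ _) (by norm_num)
  exact (Finset.sum_le_sum fun z _ => h z).trans (le_of_eq (mass_PL A _))

lemma l1_PLp (A : Finset (ι → Bool)) (ν : (ι → Bool) → ℝ) (t : ℕ) :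
    ∑ z, |(PL A ^ t) ν z| ≤ ∑ z, |ν z| := by
  induction t with
  | zero => simp
  | succ t ih => rw [pow_succ_apply]; exact (l1_PL A _).trans ih

/-- The constant `u` on `A`. -/
noncomputable def unif (A : Finset (ι → Bool)) (u : ℝ) : (ι → Bool) → ℝ :=
  fun z => if z ∈ A then u else 0

lemma PL_unif (A : Finset (ι → Bool)) (u : ℝ) : PL A (unif A u) = unif A u := by
  have hn := card_pos' (ι := ι)
  funext z
  simp only [PL_apply, Pk_eq, unif, cf_mem]
  simp
  split_ifs
  · field_simp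
  · simp

lemma PLp_unif (A : Finset (ι → Bool)) (u : ℝ) (t : ℕ) : (PL A ^ t) (unif A u) = unif A u := by
  induction t with
  | zero => simp
  | succ t ih => rw [pow_succ_apply, ih, PL_unif]

lemma energy_le (A : Finset (ι → Bool)) {ν : (ι → Bool) → ℝ} (h : ∀ z, 0 ≤ ν z) :
    ∑ k, (Sh (Pk A k ν) - Sh ν) ≤ Fintype.card ι * (Sh (PL A ν) - Sh ν) := by
  have hn := card_pos' (ι := ι)
  have h1 : ∀ z, ∑ k, negMulLog (Pk A k ν z) ≤ Fintype.card ι * negMulLog (PL A ν z) := by
    intro z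
    have := Real.concaveOn_negMulLog.le_map_sum (t := (univ : Finset ι))
      (w := fun _ => (1 : ℝ) / Fintype.card ι) (p := fun k => Pk A k ν z)
      (fun _ _ => by positivity)
      (by simp only [Finset.sum_const, Finset.card_univ, nsmul_eq_mul]; field_simp)
      (fun k _ => Pk_nonneg A k h z)
    simp only [smul_eq_mul, ← Finset.mul_sum] at this
    have e : PL A ν z = 1 / Fintype.card ι * ∑ k, Pk A k ν z := by rw [PL_apply]; ring
    rw [e]
    have h2 := mul_le_mul_of_nonneg_left this hn.le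
    rwa [← mul_assoc, mul_one_div_cancel hn.ne', one_mul] at h2
  have h2 : ∑ k, Sh (Pk A k ν) ≤ Fintype.card ι * Sh (PL A ν) := by
    unfold Sh
    rw [Finset.sum_comm, Finset.mul_sum]
    exact Finset.sum_le_sum fun z _ => h1 z
  rw [Finset.sum_sub_distrib]
  simp only [Finset.sum_const, Finset.card_univ, nsmul_eq_mul]
  linarith

lemma Sh_le_PL (A : Finset (ι → Bool)) {ν : (ι → Bool) → ℝ} (h : ∀ z, 0 ≤ ν z) :
    Sh ν ≤ Sh (PL A ν) := by
  have hn := card_pos' (ι := ι)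
  have h1 := energy_le A h
  have h2 : 0 ≤ ∑ k, (Sh (Pk A k ν) - Sh ν) :=
    Finset.sum_nonneg fun k _ => sub_nonneg.mpr (Sh_le_Pk A k h (fun _ => rfl) (fun _ _ => rfl))
  by_contra hc
  push Not at hc
  nlinarith

lemma D_PL_le (A : Finset (ι → Bool)) {ν : (ι → Bool) → ℝ} (h : ∀ z, 0 ≤ ν z) :
    D (PL A ν) ≤ D ν := by
  unfold D; rw [mass_PL]; linarith [Sh_le_PL A h]

lemma D_PLp_le (A : Finset (ι → Bool)) {ν : (ι → Bool) → ℝ} (h : ∀ z, 0 ≤ ν z) (t : ℕ) :
    D ((PL A ^ t) ν) ≤ D ν := by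
  induction t with
  | zero => simp
  | succ t ih => rw [pow_succ_apply]; exact (D_PL_le A (PLp_nonneg A h t)).trans ih

/-- The directed inequality in terms of one step of the chain. -/
theorem core' (c : Bool → Bool) {A : Finset (ι → Bool)} (hA : Conv c A) {ν ρ : (ι → Bool) → ℝ}
    (hν : ∀ z, 0 ≤ ν z) (hνA : ∀ z, z ∉ A → ν z = 0) (hρ : ∀ z, 0 ≤ ρ z)
    (hρA : ∀ z, z ∉ A → ρ z = 0) (hd : Dom c A ν ρ) :
    Sh ρ - Sh ν ≤ Fintype.card ι * (D ν - D (PL A ν)) := by
  have h := (core c hA hν hνA hρ hρA hd).trans (energy_le A hν)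
  have e : D ν - D (PL A ν) = Sh (PL A ν) - Sh ν := by
    unfold D; rw [mass_PL]; ring
  rwa [e]

lemma Dom_mass {c : Bool → Bool} {A : Finset (ι → Bool)} {ν ρ : (ι → Bool) → ℝ}
    (hd : Dom c A ν ρ) : mass ρ = mass ν := by
  have h1 := hd (fun _ => 1) (fun _ _ _ _ _ => le_rfl)
  have h2 := hd (fun _ => -1) (fun _ _ _ _ _ => le_rfl)
  simp only [mul_one, mul_neg, Finset.sum_neg_distrib] at h1 h2
  unfold mass
  linarith

/-- There is a time in any window at which the one-step entropy drop is small. -/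
lemma exists_small_drop (A : Finset (ι → Bool)) {ν : (ι → Bool) → ℝ} {T : ℕ} (hT : 0 < T) :
    ∃ s < T, T * (D ((PL A ^ s) ν) - D (PL A ((PL A ^ s) ν))) ≤ D ν - D ((PL A ^ T) ν) := by
  by_contra hc
  push Not at hc
  have h1 : ∑ s ∈ range T, (D ((PL A ^ s) ν) - D ((PL A ^ (s + 1)) ν)) =
      D ν - D ((PL A ^ T) ν) := by
    rw [Finset.sum_range_sub' (fun s => D ((PL A ^ s) ν))]; simp
  have h2 : ∑ _s ∈ range T, (D ν - D ((PL A ^ T) ν)) <
      ∑ s ∈ range T, T * (D ((PL A ^ s) ν) - D ((PL A ^ (s + 1)) ν)) :=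
    Finset.sum_lt_sum_of_nonempty (by simp [hT.ne']) fun s hs => by
      rw [pow_succ_apply]; exact hc s (mem_range.mp hs)
  rw [← Finset.mul_sum, h1] at h2
  simp only [Finset.sum_const, Finset.card_range, nsmul_eq_mul] at h2
  exact lt_irrefl _ h2

lemma free_contr {ρ : (ι → Bool) → ℝ} (h : ∀ z, 0 ≤ ρ z) :
    D (PL univ ρ) ≤ (1 - 1 / Fintype.card ι) * D ρ := by
  have hn := card_pos' (ι := ι)
  have hN : (0 : ℝ) < Fintype.card (ι → Bool) := by exact_mod_cast Fintype.card_pos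
  have hM := mass_nonneg h
  have h1 := core' (fun _ => true) (A := univ) (fun _ _ _ _ _ _ _ => mem_univ _) (ν := ρ)
    (ρ := fun _ => mass ρ / Fintype.card (ι → Bool)) h (fun z hz => absurd (mem_univ z) hz)
    (fun _ => by positivity) (fun z hz => absurd (mem_univ z) hz) (by
      intro φ hφ
      obtain ⟨x0⟩ : Nonempty (ι → Bool) := inferInstance
      have hc : ∀ x, φ x = φ x0 := fun x => le_antisymm
        (hφ x0 (mem_univ _) x (mem_univ _) fun i => Or.inr ⟨mem_univ _, rfl⟩)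
        (hφ x (mem_univ _) x0 (mem_univ _) fun i => Or.inr ⟨mem_univ _, rfl⟩)
      simp only [hc, ← Finset.sum_mul, Finset.sum_const, Finset.card_univ, nsmul_eq_mul]
      apply le_of_eq
      unfold mass
      field_simp)
  have h2 : Sh (fun _ : ι → Bool => mass ρ / Fintype.card (ι → Bool)) - Sh ρ = D ρ := by
    unfold D
    congr 1
    simp only [Sh, Finset.sum_const, Finset.card_univ, nsmul_eq_mul]
    rcases hM.eq_or_lt with h0 | h0
    · rw [← h0]; simp
    · unfold negMulLog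
      rw [Real.log_div h0.ne' hN.ne']
      field_simp
      ring
  rw [h2] at h1
  have h3 : D ρ / Fintype.card ι ≤ D ρ - D (PL univ ρ) := by
    rw [div_le_iff₀ hn]; linarith
  have h4 : (1 - 1 / Fintype.card ι) * D ρ = D ρ - D ρ / Fintype.card ι := by ring
  linarith

lemma free_half {ρ : (ι → Bool) → ℝ} (h : ∀ z, 0 ≤ ρ z) :
    D ((PL univ ^ Fintype.card ι) ρ) ≤ D ρ / 2 := by
  have hn := card_pos' (ι := ι)
  have hn1 : (1 : ℝ) ≤ Fintype.card ι := by exact_mod_cast Fintype.card_pos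
  have hq : 0 ≤ 1 - 1 / (Fintype.card ι : ℝ) := by
    rw [sub_nonneg, div_le_one hn]; exact hn1
  have h1 : ∀ t : ℕ, D ((PL univ ^ t) ρ) ≤ (1 - 1 / Fintype.card ι) ^ t * D ρ := by
    intro t
    induction t with
    | zero => simp
    | succ t ih =>
      rw [pow_succ_apply, pow_succ']
      refine (free_contr (PLp_nonneg _ h t)).trans ?_
      rw [mul_assoc]
      exact mul_le_mul_of_nonneg_left ih hq
  have h2 : (1 - 1 / (Fintype.card ι : ℝ)) ^ Fintype.card ι ≤ 1 / 2 := by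
    have h3 : 1 - 1 / (Fintype.card ι : ℝ) ≤ exp (-(1 / Fintype.card ι)) := by
      have := Real.add_one_le_exp (-(1 / (Fintype.card ι : ℝ))); linarith
    have h4 := pow_le_pow_left₀ hq h3 (Fintype.card ι)
    rw [← Real.exp_nat_mul] at h4
    have h5 : (Fintype.card ι : ℝ) * -(1 / Fintype.card ι) = -1 := by field_simp
    rw [h5] at h4
    have h6 : exp (-1 : ℝ) ≤ 1 / 2 := by
      rw [Real.exp_neg, ← one_div]
      apply one_div_le_one_div_of_le (by norm_num)
      have := Real.add_one_le_exp (1 : ℝ); linarith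
    linarith
  have := D_nonneg h
  nlinarith [h1 (Fintype.card ι)]

lemma free_halves {ρ : (ι → Bool) → ℝ} (h : ∀ z, 0 ≤ ρ z) (j : ℕ) :
    D ((PL univ ^ (j * Fintype.card ι)) ρ) ≤ D ρ / 2 ^ j := by
  induction j with
  | zero => simp
  | succ j ih =>
    rw [Nat.succ_mul, add_comm, pow_add_apply]
    refine (free_half (PLp_nonneg _ h _)).trans ?_
    rw [pow_succ, ← div_div]
    linarith

end Pool.Agent.H93Z.Cens
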