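import Pool.Agent.H93Z.Cens.Ent

/-! A directed entropy tensorisation inequality on convex subsets of the hypercube:
product-form couplings and submodularity of the entropy. -/

set_option autoImplicit false

namespace Pool.Agent.H93Z.Cens

open Real Finset

variable {ι : Type*} [Fintype ι] [DecidableEq ι]

/-- Flip coordinate `k`. -/
def fl (z : ι → Bool) (k : ι) : ι → Bool := Function.update z k (!z k)

omit [Fintype ι] in
@[simp] lemma fl_self (z : ι → Bool) (k : ι) : fl z k k = !z k := by simp [fl]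

omit [Fintype ι] in
lemma fl_ne (z : ι → Bool) {k i : ι} (h : i ≠ k) : fl z k i = z i := by simp [fl, h]

omit [Fintype ι] in
@[simp] lemma fl_fl (z : ι → Bool) (k : ι) : fl (fl z k) k = z := by
  funext i
  by_cases h : i = k
  · subst h; simp
  · rw [fl_ne _ h, fl_ne _ h]

omit [Fintype ι] in
lemma fl_comm (z : ι → Bool) {j k : ι} (h : j ≠ k) : fl (fl z j) k = fl (fl z k) j := by
  funext i
  by_cases h1 : i = k
  · subst h1; rw [fl_self, fl_ne _ h.symm, fl_ne _ h.symm, fl_self]
  · by_cases h2 : i = j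
    · subst h2; rw [fl_ne _ h1, fl_self, fl_self, fl_ne _ h1]
    · rw [fl_ne _ h1, fl_ne _ h2, fl_ne _ h2, fl_ne _ h1]

lemma sum_fl (k : ι) (f : (ι → Bool) → ℝ) : ∑ z, f (fl z k) = ∑ z, f z :=
  Equiv.sum_comp (Function.Involutive.toPerm (fun z : ι → Bool => fl z k) (fun z => fl_fl z k)) f

/-- One-coordinate move operator. -/
def E (c : Bool → Bool) (k : ι) (φ : (ι → Bool) → ℝ) : (ι → Bool) → ℝ :=
  fun z => φ z + if c (z k) = true then φ (fl z k) else 0

/-- The reversed move rule. -/
def co (c : Bool → Bool) : Bool → Bool := fun b => c (!b)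

@[simp] lemma co_co (c : Bool → Bool) : co (co c) = c := by
  funext b; simp [co]

omit [Fintype ι] in
lemma E_nonneg (c : Bool → Bool) (k : ι) {φ : (ι → Bool) → ℝ} (h : ∀ z, 0 ≤ φ z) (z : ι → Bool) :
    0 ≤ E c k φ z := by
  unfold E
  split_ifs
  · exact add_nonneg (h _) (h _)
  · simpa using h z

lemma E_adj (c : Bool → Bool) (k : ι) (ψ φ : (ι → Bool) → ℝ) :
    ∑ z, E (co c) k ψ z * φ z = ∑ z, ψ z * E c k φ z := by
  simp only [E, add_mul, mul_add, Finset.sum_add_distrib]
  congr 1
  rw [← sum_fl k (fun z => ψ z * if c (z k) = true then φ (fl z k) else 0)]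
  refine Finset.sum_congr rfl fun z _ => ?_
  simp only [co, fl_self, fl_fl]
  split_ifs <;> simp

omit [Fintype ι] in
lemma E_point (c : Bool → Bool) {j k : ι} (hjk : j ≠ k) {B : (ι → Bool) → ℝ}
    (hB : ∀ z, 0 ≤ B z) (z : ι → Bool) :
    negMulLog (E c j (E c k B) z) + E c k (E c j (fun w => negMulLog (B w))) z ≤
      E c j (fun w => negMulLog (E c k B w)) z + E c k (fun w => negMulLog (E c j B w)) z := by
  simp only [E, fl_ne z hjk, fl_ne z hjk.symm]
  rw [fl_comm z hjk]
  by_cases h1 : c (z j) = true <;> by_cases h2 : c (z k) = true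
  · simp only [h1, h2, if_true]
    have h := phi2 (hB z) (hB (fl z k)) (hB (fl z j)) (hB (fl (fl z k) j))
    have e : B z + B (fl z k) + (B (fl z j) + B (fl (fl z k) j)) =
        B z + B (fl z j) + (B (fl z k) + B (fl (fl z k) j)) := by ring
    rw [e]
    linarith
  · simp [h1, h2]; linarith
  · simp [h1, h2]
  · simp [h1, h2]

lemma Sh_mul (A B : (ι → Bool) → ℝ) :
    Sh (fun z => A z * B z) = ∑ z, B z * negMulLog (A z) + ∑ z, A z * negMulLog (B z) := by
  unfold Sh
  rw [← Finset.sum_add_distrib]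
  exact Finset.sum_congr rfl fun z _ => Real.negMulLog_mul _ _

lemma half_sub (c : Bool → Bool) {j k : ι} (hjk : j ≠ k) {A B : (ι → Bool) → ℝ}
    (hA : ∀ z, 0 ≤ A z) (hB : ∀ z, 0 ≤ B z) :
    ∑ z, A z * negMulLog (E c j (E c k B) z) +
      ∑ z, E (co c) j (E (co c) k A) z * negMulLog (B z) ≤
    ∑ z, E (co c) j A z * negMulLog (E c k B z) +
      ∑ z, E (co c) k A z * negMulLog (E c j B z) := by
  rw [E_adj, E_adj, E_adj, E_adj, ← Finset.sum_add_distrib, ← Finset.sum_add_distrib]
  refine Finset.sum_le_sum fun z _ => ?_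
  rw [← mul_add, ← mul_add]
  exact mul_le_mul_of_nonneg_left (E_point c hjk hB z) (hA z)

lemma pair_sub (c : Bool → Bool) {j k : ι} (hjk : j ≠ k) {A B : (ι → Bool) → ℝ}
    (hA : ∀ z, 0 ≤ A z) (hB : ∀ z, 0 ≤ B z) :
    Sh (fun z => A z * E c j (E c k B) z) + Sh (fun z => E (co c) j (E (co c) k A) z * B z) ≤
      Sh (fun z => E (co c) j A z * E c k B z) + Sh (fun z => E (co c) k A z * E c j B z) := by
  rw [Sh_mul, Sh_mul, Sh_mul, Sh_mul]
  have h1 := half_sub c hjk hA hB
  have h2 := half_sub (co c) hjk hB hA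
  rw [co_co] at h2
  linarith

/-- `y` is reachable from `x` by allowed moves in the coordinates of `S`. -/
def R (c : Bool → Bool) (S : Finset ι) (x y : ι → Bool) : Prop :=
  ∀ i, y i = x i ∨ (i ∈ S ∧ c (x i) = true)

instance (c : Bool → Bool) (S : Finset ι) (x y : ι → Bool) : Decidable (R c S x y) := by
  unfold R; infer_instance

omit [Fintype ι] [DecidableEq ι] in
lemma R_co (c : Bool → Bool) (S : Finset ι) (x y : ι → Bool) : R (co c) S y x ↔ R c S x y := by
  refine forall_congr' fun i => ?_
  cases hx : x i <;> cases hy : y i <;> simp [co]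

omit [Fintype ι] [DecidableEq ι] in
lemma R_refl (c : Bool → Bool) (S : Finset ι) (x : ι → Bool) : R c S x x := fun _ => Or.inl rfl

omit [DecidableEq ι] in
lemma R_trans {c : Bool → Bool} {x y w : ι → Bool} (h : R c univ x y) (h' : R c univ y w) :
    R c univ x w := by
  intro i
  rcases h i with h1 | h1
  · rcases h' i with h2 | h2
    · exact Or.inl (h2.trans h1)
    · exact Or.inr ⟨mem_univ _, h1 ▸ h2.2⟩
  · exact Or.inr h1

omit [DecidableEq ι] in
lemma R_mono {c : Bool → Bool} {S : Finset ι} {x y : ι → Bool} (h : R c S x y) :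
    R c univ x y := fun i => (h i).imp id fun h1 => ⟨mem_univ _, h1.2⟩

/-- The sum of `φ` over the points reachable from `x` by moves in `S`. -/
noncomputable def Dn (c : Bool → Bool) (S : Finset ι) (φ : (ι → Bool) → ℝ) :
    (ι → Bool) → ℝ :=
  fun x => ∑ y, if R c S x y then φ y else 0

lemma Dn_nonneg (c : Bool → Bool) (S : Finset ι) {φ : (ι → Bool) → ℝ} (h : ∀ z, 0 ≤ φ z)
    (x : ι → Bool) : 0 ≤ Dn c S φ x :=
  Finset.sum_nonneg fun y _ => by split_ifs; exacts [h y, le_rfl]

lemma Dn_empty (c : Bool → Bool) (φ : (ι → Bool) → ℝ) : Dn c ∅ φ = φ := by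
  funext x
  unfold Dn
  rw [Finset.sum_eq_single x]
  · rw [if_pos (R_refl _ _ _)]
  · intro y _ hy
    rw [if_neg]
    intro h
    apply hy
    funext i
    rcases h i with h1 | h1
    · exact h1
    · simp at h1
  · simp

lemma Dn_insert (c : Bool → Bool) {S : Finset ι} {k : ι} (hk : k ∉ S) (φ : (ι → Bool) → ℝ) :
    Dn c (insert k S) φ = E c k (Dn c S φ) := by
  funext z
  have key : ∀ y : ι → Bool, (if R c (insert k S) z y then φ y else 0) =
      (if R c S z y then φ y else 0) +
        (if c (z k) = true then (if R c S (fl z k) y then φ y else 0) else 0) := by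
    intro y
    by_cases hy : y k = z k
    · have h2 : ¬ R c S (fl z k) y := by
        intro h
        rcases h k with h1 | h1
        · rw [fl_self, hy] at h1; simp at h1
        · exact hk h1.1
      have h3 : R c (insert k S) z y ↔ R c S z y := by
        refine forall_congr' fun i => ?_
        by_cases hi : i = k
        · subst hi; simp [hy]
        · simp [hi]
      simp [h2, h3]
    · have h2 : ¬ R c S z y := by
        intro h
        rcases h k with h1 | h1
        · exact hy h1
        · exact hk h1.1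
      have hy' : y k = !z k := by
        cases h1 : y k <;> cases h2 : z k <;> simp_all
      by_cases hc : c (z k) = true
      · have h3 : R c (insert k S) z y ↔ R c S (fl z k) y := by
          refine forall_congr' fun i => ?_
          by_cases hi : i = k
          · subst hi; simp [hy', hc]
          · simp [hi, fl_ne z hi]
        simp [h2, h3, hc]
      · have h3 : ¬ R c (insert k S) z y := by
          intro h
          rcases h k with h1 | h1
          · exact hy h1
          · exact hc h1.2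
        simp [h2, h3, hc]
  unfold E Dn
  simp only [key, Finset.sum_add_distrib]
  congr 1
  split_ifs <;> simp

omit [Fintype ι] in
lemma submod_step (f : Finset ι → ℝ)
    (h : ∀ (S : Finset ι) (j k : ι), j ≠ k → j ∉ S → k ∉ S →
      f (insert j (insert k S)) + f S ≤ f (insert j S) + f (insert k S))
    (S : Finset ι) : ∀ k, k ∉ S → f (insert k S) - f S ≤ f {k} - f ∅ := by
  induction S using Finset.induction_on with
  | empty => intro k _; simp
  | insert j S hj ih =>
    intro k hk
    rw [Finset.mem_insert, not_or] at hk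
    have h1 := h S k j hk.1 hk.2 hj
    have h2 := ih k hk.2
    linarith

omit [Fintype ι] in
lemma submod_sum (f : Finset ι → ℝ)
    (h : ∀ (S : Finset ι) (j k : ι), j ≠ k → j ∉ S → k ∉ S →
      f (insert j (insert k S)) + f S ≤ f (insert j S) + f (insert k S))
    (S : Finset ι) : f S - f ∅ ≤ ∑ k ∈ S, (f {k} - f ∅) := by
  induction S using Finset.induction_on with
  | empty => simp
  | insert j S hj ih =>
    rw [Finset.sum_insert hj]
    have := submod_step f h S j hj
    linarith

lemma prod_sub (c : Bool → Bool) {a b : (ι → Bool) → ℝ} (ha : ∀ z, 0 ≤ a z) (hb : ∀ z, 0 ≤ b z) :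
    Sh (fun z => Dn (co c) univ a z * b z) - Sh (fun z => a z * Dn c univ b z) ≤
      ∑ k, (Sh (fun z => E (co c) k a z * Dn c {k}ᶜ b z) - Sh (fun z => a z * Dn c univ b z)) := by
  have h := submod_sum (fun S : Finset ι => Sh (fun z => Dn (co c) S a z * Dn c Sᶜ b z)) ?_ univ
  · simp only [Finset.compl_univ, Finset.compl_empty, Dn_empty] at h
    have e : ∀ k : ι, Dn (co c) {k} a = E (co c) k a := by
      intro k
      have := Dn_insert (co c) (S := ∅) (k := k) (by simp) a
      rwa [Dn_empty, insert_empty_eq] at this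
    simpa only [e] using h
  · intro S j k hjk hj hk
    set T : Finset ι := (insert j (insert k S))ᶜ with hT
    have hjT : j ∉ T := by simp [hT]
    have hkT : k ∉ T := by simp [hT]
    have e1 : Sᶜ = insert j (insert k T) := by
      ext i; simp only [hT, mem_compl, mem_insert]
      by_cases h1 : i = j
      · subst h1; simp [hj]
      · by_cases h2 : i = k
        · subst h2; simp [hk]
        · simp [h1, h2]
    have e2 : (insert j S)ᶜ = insert k T := by
      ext i; simp only [hT, mem_compl, mem_insert]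
      by_cases h2 : i = k
      · subst h2; simp [hk, hjk.symm]
      · simp [h2]
    have e3 : (insert k S)ᶜ = insert j T := by
      ext i; simp only [hT, mem_compl, mem_insert]
      by_cases h2 : i = j
      · subst h2; simp [hj, hjk]
      · simp [h2]
    have hjkT : j ∉ insert k T := by simp [hjk, hjT]
    have hjkS : j ∉ insert k S := by simp [hjk, hj]
    rw [e1, e2, e3, Dn_insert c hjkT, Dn_insert c hkT, Dn_insert c hjT, Dn_insert (co c) hjkS,
      Dn_insert (co c) hk, Dn_insert (co c) hj]
    have := pair_sub c hjk (Dn_nonneg (co c) S ha) (Dn_nonneg c T hb)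
    linarith

/-- Heat-bath averaging along the edges in direction `k` that lie inside `A`. -/
noncomputable def Pk (A : Finset (ι → Bool)) (k : ι) (ν : (ι → Bool) → ℝ) : (ι → Bool) → ℝ :=
  fun z => if z ∈ A ∧ fl z k ∈ A then (ν z + ν (fl z k)) / 2 else ν z

lemma Sh_le_Pk (A : Finset (ι → Bool)) (k : ι) {m ν : (ι → Bool) → ℝ} (hm : ∀ z, 0 ≤ m z)
    (h1 : ∀ z, m z + m (fl z k) = ν z + ν (fl z k))
    (h2 : ∀ z, ¬ (z ∈ A ∧ fl z k ∈ A) → m z = ν z) : Sh m ≤ Sh (Pk A k ν) := by
  have e : ∀ g : (ι → Bool) → ℝ, 2 * Sh g = ∑ z, (negMulLog (g z) + negMulLog (g (fl z k))) := by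
    intro g
    rw [Finset.sum_add_distrib, sum_fl k (fun z => negMulLog (g z))]
    unfold Sh; ring
  have h : 2 * Sh m ≤ 2 * Sh (Pk A k ν) := by
    rw [e, e]
    refine Finset.sum_le_sum fun z _ => ?_
    by_cases hz : z ∈ A ∧ fl z k ∈ A
    · simp only [Pk, if_pos hz, fl_fl, if_pos hz.symm]
      have := eta_mid (hm z) (hm (fl z k))
      rw [h1 z] at this
      rw [add_comm (ν (fl z k)) (ν z)]
      linarith
    · have hz' : ¬ (fl z k ∈ A ∧ fl (fl z k) k ∈ A) := by
        rw [fl_fl]; exact fun h => hz h.symm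
      simp only [Pk, if_neg hz, if_neg hz']
      rw [h2 z hz, h2 _ hz']
  linarith

/-- Convexity of `A` for the move rule `c`. -/
def Conv (c : Bool → Bool) (A : Finset (ι → Bool)) : Prop :=
  ∀ x ∈ A, ∀ y ∈ A, ∀ w, R c univ x w → R c univ w y → w ∈ A

lemma prod_ineq (c : Bool → Bool) {A : Finset (ι → Bool)} (hA : Conv c A)
    {a b : (ι → Bool) → ℝ} (ha : ∀ z, 0 ≤ a z) (hb : ∀ z, 0 ≤ b z)
    (haA : ∀ z, z ∉ A → a z = 0) (hbA : ∀ z, z ∉ A → b z = 0) :
    Sh (fun z => Dn (co c) univ a z * b z) - Sh (fun z => a z * Dn c univ b z) ≤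
      ∑ k, (Sh (Pk A k (fun z => a z * Dn c univ b z)) - Sh (fun z => a z * Dn c univ b z)) := by
  refine (prod_sub c ha hb).trans (Finset.sum_le_sum fun k _ => ?_)
  refine sub_le_sub_right ?_ _
  have e : Dn c univ b = E c k (Dn c {k}ᶜ b) := by
    rw [← Dn_insert c (by simp)]
    congr 1
    ext i; by_cases h : i = k <;> simp [h]
  set C := Dn c {k}ᶜ b with hC
  have hw : ∀ z, c (z k) = true → ¬ (z ∈ A ∧ fl z k ∈ A) → a z * C (fl z k) = 0 := by
    intro z hc hz
    by_contra hne
    have h1 : a z ≠ 0 := left_ne_zero_of_mul hne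
    have h2 : C (fl z k) ≠ 0 := right_ne_zero_of_mul hne
    have hzA : z ∈ A := by by_contra h; exact h1 (haA z h)
    obtain ⟨y, -, hy⟩ := Finset.exists_ne_zero_of_sum_ne_zero h2
    have hR : R c {k}ᶜ (fl z k) y := by by_contra h; simp [h] at hy
    have hyA : y ∈ A := by
      by_contra h; rw [if_pos hR] at hy; exact hy (hbA y h)
    refine hz ⟨hzA, hA z hzA y hyA _ ?_ (R_mono hR)⟩
    intro i
    by_cases hi : i = k
    · subst hi; exact Or.inr ⟨mem_univ _, hc⟩
    · exact Or.inl (fl_ne z hi)
  refine Sh_le_Pk A k (fun z => mul_nonneg (E_nonneg _ _ ha z) (Dn_nonneg c _ hb z)) ?_ ?_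
  · intro z
    rw [e]
    simp only [E, co, fl_self, fl_fl, Bool.not_not]
    split_ifs <;> ring
  · intro z hz
    rw [e]
    simp only [E, co]
    have hz' : ¬ (fl z k ∈ A ∧ fl (fl z k) k ∈ A) := by
      rw [fl_fl]; exact fun h => hz h.symm
    have h1 := hw z
    have h2 := hw (fl z k)
    rw [fl_self, fl_fl] at h2
    by_cases hc1 : c (z k) = true <;> by_cases hc2 : c (!z k) = true
    · simp only [hc1, hc2, if_true]
      have := h1 hc1 hz
      have := h2 hc2 (by rwa [fl_fl] at hz')
      nlinarith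
    · rw [if_neg hc2, if_pos hc1]
      have := h1 hc1 hz
      nlinarith
    · rw [if_pos hc2, if_neg hc1]
      have := h2 hc2 (by rwa [fl_fl] at hz')
      nlinarith
    · simp [hc1, hc2]

end Pool.Agent.H93Z.Cens
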