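import Pool.Agent.H93Z.Cens.Core

/-! The directed entropy inequality for arbitrary dominated measures. -/

set_option autoImplicit false

namespace Pool.Agent.H93Z.Cens

open Real Finset

variable {ι : Type*} [Fintype ι] [DecidableEq ι]

/-- `ρ` is obtained from `ν` by moving mass along allowed moves (dual form). -/
def Dom (c : Bool → Bool) (A : Finset (ι → Bool)) (ν ρ : (ι → Bool) → ℝ) : Prop :=
  ∀ φ : (ι → Bool) → ℝ, (∀ x ∈ A, ∀ y ∈ A, R c univ x y → φ y ≤ φ x) →
    ∑ z, ρ z * φ z ≤ ∑ z, ν z * φ z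

noncomputable def bb (A : Finset (ι → Bool)) (β : (ι → Bool) → ℝ) : (ι → Bool) → ℝ :=
  fun y => if y ∈ A then exp (β y) else 0

omit [DecidableEq ι] in
lemma bb_nonneg (A : Finset (ι → Bool)) (β : (ι → Bool) → ℝ) (y : ι → Bool) : 0 ≤ bb A β y := by
  unfold bb; split_ifs
  · exact (exp_pos _).le
  · exact le_rfl

lemma exp_le_B0 (c : Bool → Bool) (A : Finset (ι → Bool)) (β : (ι → Bool) → ℝ) {x : ι → Bool}
    (hx : x ∈ A) : exp (β x) ≤ Dn c univ (bb A β) x := by
  have h := Finset.single_le_sum (f := fun y => if R c univ x y then bb A β y else 0)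
    (s := univ) (fun y _ => by split_ifs; exacts [bb_nonneg _ _ _, le_rfl]) (mem_univ x)
  rw [if_pos (R_refl _ _ _)] at h
  simpa [bb, hx, Dn] using h

lemma B0_pos (c : Bool → Bool) (A : Finset (ι → Bool)) (β : (ι → Bool) → ℝ) {x : ι → Bool}
    (hx : x ∈ A) : 0 < Dn c univ (bb A β) x := (exp_pos _).trans_le (exp_le_B0 c A β hx)

lemma B0_mono (c : Bool → Bool) (A : Finset (ι → Bool)) (β : (ι → Bool) → ℝ) {x y : ι → Bool}
    (h : R c univ x y) : Dn c univ (bb A β) y ≤ Dn c univ (bb A β) x := by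
  refine Finset.sum_le_sum fun w _ => ?_
  by_cases h1 : R c univ y w
  · rw [if_pos h1, if_pos (R_trans h h1)]
  · rw [if_neg h1]; split_ifs; exacts [bb_nonneg _ _ _, le_rfl]

noncomputable def Psi (c : Bool → Bool) (A : Finset (ι → Bool)) (ν ρ : (ι → Bool) → ℝ) (δ : ℝ)
    (β : (ι → Bool) → ℝ) : ℝ :=
  ∑ x ∈ A, ν x * log (Dn c univ (bb A β) x) - ∑ y, ρ y * β y + δ * ∑ y, β y ^ 2

lemma Psi_cont (c : Bool → Bool) (A : Finset (ι → Bool)) (ν ρ : (ι → Bool) → ℝ) (δ : ℝ) :
    Continuous (Psi c A ν ρ δ) := by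
  unfold Psi
  refine (Continuous.sub ?_ (by fun_prop)).add (by fun_prop)
  refine continuous_finsetSum _ fun x hx => continuous_const.mul ?_
  refine Continuous.log ?_ fun β => (B0_pos c A β hx).ne'
  unfold Dn bb
  refine continuous_finsetSum _ fun y _ => ?_
  split_ifs <;> fun_prop

lemma Psi_ge (c : Bool → Bool) (A : Finset (ι → Bool)) {ν ρ : (ι → Bool) → ℝ}
    (hνA : ∀ z, z ∉ A → ν z = 0) (hρ : ∀ z, 0 ≤ ρ z) (hρA : ∀ z, z ∉ A → ρ z = 0)
    (hd : Dom c A ν ρ) (δ : ℝ) (β : (ι → Bool) → ℝ) :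
    δ * ∑ y, β y ^ 2 ≤ Psi c A ν ρ δ β := by
  have h1 := hd (fun x => log (Dn c univ (bb A β) x)) fun x _ y hy h =>
    Real.log_le_log (B0_pos c A β hy) (B0_mono c A β h)
  have h2 : ∑ y, ρ y * β y ≤ ∑ y, ρ y * log (Dn c univ (bb A β) y) := by
    refine Finset.sum_le_sum fun y _ => ?_
    by_cases hy : y ∈ A
    · refine mul_le_mul_of_nonneg_left ?_ (hρ y)
      rw [Real.le_log_iff_exp_le (B0_pos c A β hy)]
      exact exp_le_B0 c A β hy
    · simp [hρA y hy]
  have h3 : ∑ x ∈ A, ν x * log (Dn c univ (bb A β) x) =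
      ∑ x, ν x * log (Dn c univ (bb A β) x) :=
    Finset.sum_subset (subset_univ _) fun x _ hx => by simp [hνA x hx]
  unfold Psi
  linarith

omit [Fintype ι] in
lemma hasDerivAt_upd [Fintype ι] (β : (ι → Bool) → ℝ) (y w : ι → Bool) (t : ℝ) :
    HasDerivAt (fun s => Function.update β y s w) (if w = y then 1 else 0) t := by
  by_cases h : w = y
  · subst h; simpa using hasDerivAt_id' t
  · simpa [h] using hasDerivAt_const t (β w)

lemma Psi_deriv (c : Bool → Bool) (A : Finset (ι → Bool)) (ν ρ : (ι → Bool) → ℝ) (δ : ℝ)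
    (β : (ι → Bool) → ℝ) (y : ι → Bool) :
    HasDerivAt (fun s => Psi c A ν ρ δ (Function.update β y s))
      (∑ x ∈ A, ν x * ((if R c univ x y then bb A β y else 0) / Dn c univ (bb A β) x) - ρ y +
        δ * (2 * β y)) (β y) := by
  unfold Psi
  refine (HasDerivAt.sub ?_ ?_).add (HasDerivAt.const_mul δ ?_)
  · refine HasDerivAt.fun_sum fun x hx => HasDerivAt.const_mul _ ?_
    have h : HasDerivAt (fun s => Dn c univ (bb A (Function.update β y s)) x)
        (∑ w, if w = y then (if R c univ x w then bb A β w else 0) else 0) (β y) := by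
      unfold Dn
      refine HasDerivAt.fun_sum fun w _ => ?_
      by_cases h1 : R c univ x w
      · by_cases h2 : w ∈ A
        · have h3 := (hasDerivAt_upd β y w (β y)).exp
          simp only [h1, if_true, bb, h2]
          refine h3.congr_deriv ?_
          rw [Function.update_eq_self]
          split_ifs <;> simp
        · simpa [h1, bb, h2] using hasDerivAt_const (β y) (0 : ℝ)
      · simpa [h1] using hasDerivAt_const (β y) (0 : ℝ)
    rw [Finset.sum_ite_eq', if_pos (mem_univ _)] at h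
    have h4 := h.log (by rw [Function.update_eq_self]; exact (B0_pos c A β hx).ne')
    rwa [Function.update_eq_self] at h4
  · have h : HasDerivAt (fun s => ∑ w, ρ w * Function.update β y s w)
        (∑ w, ρ w * (if w = y then 1 else 0)) (β y) :=
      HasDerivAt.fun_sum fun w _ => (hasDerivAt_upd β y w (β y)).const_mul _
    simpa using h
  · have h : HasDerivAt (fun s => ∑ w, (Function.update β y s w) ^ 2)
        (∑ w, ((2 : ℕ) : ℝ) * (Function.update β y (β y) w) ^ (2 - 1) * (if w = y then 1 else 0))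
        (β y) :=
      HasDerivAt.fun_sum fun w _ => (hasDerivAt_upd β y w (β y)).pow 2
    simpa using h

theorem core (c : Bool → Bool) {A : Finset (ι → Bool)} (hA : Conv c A) {ν ρ : (ι → Bool) → ℝ}
    (hν : ∀ z, 0 ≤ ν z) (hνA : ∀ z, z ∉ A → ν z = 0) (hρ : ∀ z, 0 ≤ ρ z)
    (hρA : ∀ z, z ∉ A → ρ z = 0) (hd : Dom c A ν ρ) :
    Sh ρ - Sh ν ≤ ∑ k, (Sh (Pk A k ν) - Sh ν) := by
  have hcl : IsClosed {m : (ι → Bool) → ℝ | Sh m - Sh ν ≤ ∑ k, (Sh (Pk A k ν) - Sh ν)} :=
    isClosed_le (continuous_Sh.sub continuous_const) continuous_const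
  refine hcl.closure_subset_iff.mpr subset_rfl (Metric.mem_closure_iff.mpr fun ε hε => ?_)
  set C0 := ∑ x ∈ A, ν x * log (Dn c univ (bb A 0) x) with hC0
  have hP0 : ∀ δ, Psi c A ν ρ δ 0 = C0 := by intro δ; simp [Psi, hC0]
  have hC : 0 ≤ C0 := by
    have := Psi_ge c A hνA hρ hρA hd 0 0
    rwa [hP0, zero_mul] at this
  set δ := ε ^ 2 / (16 * (C0 + 1)) with hδ
  have hδ0 : 0 < δ := by positivity
  have hb : ∀ β : (ι → Bool) → ℝ, Psi c A ν ρ δ β ≤ C0 → ∀ y, δ * β y ^ 2 ≤ C0 := by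
    intro β hβ y
    have h1 := Psi_ge c A hνA hρ hρA hd δ β
    have h2 : β y ^ 2 ≤ ∑ y, β y ^ 2 :=
      Finset.single_le_sum (f := fun y => β y ^ 2) (fun _ _ => sq_nonneg _) (mem_univ y)
    nlinarith
  obtain ⟨β, hβ⟩ := (Psi_cont c A ν ρ δ).exists_forall_le_of_isBounded 0 (by
    refine (Metric.isBounded_closedBall (x := (0 : (ι → Bool) → ℝ)) (r := √(C0 / δ))).subset ?_
    intro β hβ
    rw [Set.mem_ofPred_eq, hP0] at hβ
    rw [mem_closedBall_zero_iff, pi_norm_le_iff_of_nonneg (Real.sqrt_nonneg _)]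
    intro y
    rw [Real.norm_eq_abs]
    apply Real.abs_le_sqrt
    rw [le_div_iff₀ hδ0]
    linarith [hb β hβ y])
  have hβ0 : Psi c A ν ρ δ β ≤ C0 := by rw [← hP0 δ]; exact hβ 0
  set a : (ι → Bool) → ℝ := fun x => ν x / Dn c univ (bb A β) x with ha
  have haν : (fun z => a z * Dn c univ (bb A β) z) = ν := by
    funext z
    by_cases hz : z ∈ A
    · exact div_mul_cancel₀ _ (B0_pos c A β hz).ne'
    · simp [ha, hνA z hz]
  have hpi := prod_ineq c hA (a := a) (b := bb A β)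
    (fun z => div_nonneg (hν z) (Dn_nonneg c _ (bb_nonneg A β) z)) (bb_nonneg A β)
    (fun z hz => by simp [ha, hνA z hz]) (fun z hz => by simp [bb, hz])
  rw [haν] at hpi
  refine ⟨_, hpi, ?_⟩
  rw [dist_pi_lt_iff hε]
  intro y
  have hmin : IsLocalMin (fun s => Psi c A ν ρ δ (Function.update β y s)) (β y) :=
    Filter.Eventually.of_forall fun s => by
      simp only [Function.update_eq_self]; exact hβ _
  have h0 := hmin.hasDerivAt_eq_zero (Psi_deriv c A ν ρ δ β y)
  have e : Dn (co c) univ a y * bb A β y =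
      ∑ x ∈ A, ν x * ((if R c univ x y then bb A β y else 0) / Dn c univ (bb A β) x) := by
    rw [Finset.sum_subset (subset_univ A) (fun x _ hx => by simp [hνA x hx])]
    unfold Dn
    rw [Finset.sum_mul]
    refine Finset.sum_congr rfl fun x _ => ?_
    simp only [R_co, ha, Dn]
    split_ifs
    · ring
    · simp
  rw [Real.dist_eq, e]
  have e2 : ρ y - ∑ x ∈ A, ν x * ((if R c univ x y then bb A β y else 0) /
      Dn c univ (bb A β) x) = δ * (2 * β y) := by linarith
  rw [e2]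
  apply abs_lt_of_sq_lt_sq _ hε.le
  have h1 := hb β hβ0 y
  have h2 : δ * (16 * (C0 + 1)) = ε ^ 2 := by rw [hδ]; field_simp
  nlinarith [mul_le_mul_of_nonneg_left h1 hδ0.le, mul_nonneg hδ0.le hC]

end Pool.Agent.H93Z.Cens
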