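import Mathlib

/-! Elementary entropy inequalities for finite nonnegative measures. -/

set_option autoImplicit false

namespace Pool.Agent.H93Z.Cens

open Real Finset

lemma gibbs {u w : ℝ} (hu : 0 ≤ u) (hw : 0 < w) :
    negMulLog u ≤ -(u * log w) + (w - u) := by
  rcases hu.eq_or_lt with h | h
  · subst h; simp; exact hw.le
  · have h1 := Real.log_le_sub_one_of_pos (div_pos hw h)
    rw [Real.log_div hw.ne' h.ne'] at h1
    have h2 : u * (log w - log u) ≤ u * (w / u - 1) := mul_le_mul_of_nonneg_left h1 h.le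
    have h3 : u * (w / u - 1) = w - u := by field_simp
    unfold negMulLog
    nlinarith

lemma phi_le {u v s t : ℝ} (hu : 0 ≤ u) (hv : 0 ≤ v) (hs : 0 < s) (ht : 0 < t)
    (hst : s + t = 1) :
    negMulLog u + negMulLog v - negMulLog (u + v) ≤ -(u * log s) - v * log t := by
  rcases (add_nonneg hu hv).eq_or_lt with h | h
  · have h1 : u = 0 := by linarith
    have h2 : v = 0 := by linarith
    subst h1 h2; simp
  · have h1 := gibbs hu (mul_pos h hs)
    have h2 := gibbs hv (mul_pos h ht)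
    rw [Real.log_mul h.ne' hs.ne'] at h1
    rw [Real.log_mul h.ne' ht.ne'] at h2
    have h3 : negMulLog (u + v) = -(u * log (u + v)) - v * log (u + v) := by
      unfold negMulLog; ring
    have h4 : (u + v) * s + (u + v) * t = u + v := by rw [← mul_add, hst, mul_one]
    nlinarith

lemma phi2 {p q r s : ℝ} (hp : 0 ≤ p) (hq : 0 ≤ q) (hr : 0 ≤ r) (hs : 0 ≤ s) :
    (negMulLog p + negMulLog q - negMulLog (p + q)) +
      (negMulLog r + negMulLog s - negMulLog (r + s)) ≤
      negMulLog (p + r) + negMulLog (q + s) - negMulLog ((p + r) + (q + s)) := by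
  rcases (add_nonneg hp hr).eq_or_lt with h | h
  · have h1 : p = 0 := by linarith
    have h2 : r = 0 := by linarith
    subst h1 h2; simp
  rcases (add_nonneg hq hs).eq_or_lt with h' | h'
  · have h1 : q = 0 := by linarith
    have h2 : s = 0 := by linarith
    subst h1 h2; simp
  have hT : 0 < (p + r) + (q + s) := by linarith
  have hsum : (p + r) / ((p + r) + (q + s)) + (q + s) / ((p + r) + (q + s)) = 1 := by
    field_simp
  have h1 := phi_le hp hq (div_pos h hT) (div_pos h' hT) hsum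
  have h2 := phi_le hr hs (div_pos h hT) (div_pos h' hT) hsum
  rw [Real.log_div h.ne' hT.ne', Real.log_div h'.ne' hT.ne'] at h1 h2
  unfold negMulLog at *
  nlinarith

lemma phi_nonneg {u v : ℝ} (hu : 0 ≤ u) (hv : 0 ≤ v) :
    negMulLog (u + v) ≤ negMulLog u + negMulLog v := by
  rcases hu.eq_or_lt with h | h
  · subst h; simp
  rcases hv.eq_or_lt with h' | h'
  · subst h'; simp
  have h1 : log u ≤ log (u + v) := Real.log_le_log h (by linarith)
  have h2 : log v ≤ log (u + v) := Real.log_le_log h' (by linarith)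
  unfold negMulLog
  nlinarith [mul_le_mul_of_nonneg_left h1 h.le, mul_le_mul_of_nonneg_left h2 h'.le]

lemma eta_two {u v : ℝ} (hu : 0 ≤ u) (hv : 0 ≤ v) :
    negMulLog u + negMulLog v ≤ negMulLog (u + v) + (u + v) * log 2 := by
  have h := phi_le hu hv (s := 1 / 2) (t := 1 / 2) (by norm_num) (by norm_num) (by norm_num)
  have h2 : log (1 / 2 : ℝ) = -log 2 := by
    rw [one_div, Real.log_inv]
  rw [h2] at h
  nlinarith

lemma eta_mid {u v : ℝ} (hu : 0 ≤ u) (hv : 0 ≤ v) :
    negMulLog u + negMulLog v ≤ 2 * negMulLog ((u + v) / 2) := by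
  have h := eta_two hu hv
  rcases (add_nonneg hu hv).eq_or_lt with h0 | h0
  · have h1 : u = 0 := by linarith
    have h2 : v = 0 := by linarith
    subst h1 h2; simp
  · have : 2 * negMulLog ((u + v) / 2) = negMulLog (u + v) + (u + v) * log 2 := by
      unfold negMulLog
      rw [Real.log_div h0.ne' (by norm_num)]; ring
    linarith

lemma sum_phi_le {β : Type*} (s : Finset β) (u v : β → ℝ) (hu : ∀ i, 0 ≤ u i)
    (hv : ∀ i, 0 ≤ v i) :
    ∑ i ∈ s, (negMulLog (u i) + negMulLog (v i) - negMulLog (u i + v i)) ≤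
      negMulLog (∑ i ∈ s, u i) + negMulLog (∑ i ∈ s, v i) -
        negMulLog (∑ i ∈ s, u i + ∑ i ∈ s, v i) := by
  classical
  induction s using Finset.induction_on with
  | empty => simp
  | insert a s ha ih =>
    simp only [Finset.sum_insert ha]
    have h := phi2 (hu a) (hv a) (Finset.sum_nonneg fun i (_ : i ∈ s) => hu i)
      (Finset.sum_nonneg fun i (_ : i ∈ s) => hv i)
    linarith

lemma eta_sum_le {β : Type*} (s : Finset β) (u : β → ℝ) (hu : ∀ i, 0 ≤ u i) :
    negMulLog (∑ i ∈ s, u i) ≤ ∑ i ∈ s, negMulLog (u i) := by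
  classical
  induction s using Finset.induction_on with
  | empty => simp
  | insert a s ha ih =>
    simp only [Finset.sum_insert ha]
    have h := phi_nonneg (hu a) (Finset.sum_nonneg fun i (_ : i ∈ s) => hu i)
    linarith

lemma gibbs_sq {a c : ℝ} (ha : 0 ≤ a) (hc : 0 < c) :
    negMulLog (a ^ 2) ≤ -(a ^ 2 * log (c ^ 2)) + (c ^ 2 - a ^ 2) - (a - c) ^ 2 := by
  rcases ha.eq_or_lt with h | h
  · subst h; simp
  · have h1 := Real.log_le_sub_one_of_pos (div_pos hc h)
    rw [Real.log_div hc.ne' h.ne'] at h1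
    have h2 : a ^ 2 * (log c - log a) ≤ a ^ 2 * (c / a - 1) :=
      mul_le_mul_of_nonneg_left h1 (by positivity)
    have h3 : a ^ 2 * (c / a - 1) = a * c - a ^ 2 := by field_simp
    unfold negMulLog
    rw [Real.log_pow, Real.log_pow]
    push_cast
    nlinarith

/-- A Pinsker-type pointwise bound. -/
lemma abs_sub_le_gap {u v κ : ℝ} (hu : 0 ≤ u) (hv : 0 ≤ v) (hκ : 0 < κ) :
    |u - v| ≤ 2 * κ * (u + v) +
      (negMulLog ((u + v) / 2) - (negMulLog u + negMulLog v) / 2) / κ := by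
  rcases (add_nonneg hu hv).eq_or_lt with h0 | h0
  · have h1 : u = 0 := by linarith
    have h2 : v = 0 := by linarith
    subst h1 h2; simp
  obtain ⟨a, ha, rfl⟩ : ∃ a, 0 ≤ a ∧ u = a ^ 2 := ⟨√u, Real.sqrt_nonneg _, (Real.sq_sqrt hu).symm⟩
  obtain ⟨b, hb, rfl⟩ : ∃ b, 0 ≤ b ∧ v = b ^ 2 := ⟨√v, Real.sqrt_nonneg _, (Real.sq_sqrt hv).symm⟩
  obtain ⟨c, hc, hcc⟩ : ∃ c, 0 < c ∧ (a ^ 2 + b ^ 2) / 2 = c ^ 2 :=
    ⟨√((a ^ 2 + b ^ 2) / 2), Real.sqrt_pos.mpr (by linarith),
      (Real.sq_sqrt (by linarith)).symm⟩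
  have h1 := gibbs_sq ha hc
  have h2 := gibbs_sq hb hc
  have h3 : negMulLog ((a ^ 2 + b ^ 2) / 2) = -((a ^ 2 + b ^ 2) / 2 * log (c ^ 2)) := by
    rw [← hcc]; unfold negMulLog; ring
  have hgap : (a - b) ^ 2 / 4 ≤
      negMulLog ((a ^ 2 + b ^ 2) / 2) - (negMulLog (a ^ 2) + negMulLog (b ^ 2)) / 2 := by
    rw [h3]
    nlinarith [sq_nonneg (a + b - 2 * c)]
  have h4 : (a - b) ^ 2 / 4 / κ ≤
      (negMulLog ((a ^ 2 + b ^ 2) / 2) - (negMulLog (a ^ 2) + negMulLog (b ^ 2)) / 2) / κ :=
    div_le_div_of_nonneg_right hgap hκ.le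
  have h5 : |a ^ 2 - b ^ 2| = |a - b| * (a + b) := by
    rw [show a ^ 2 - b ^ 2 = (a - b) * (a + b) by ring, abs_mul, abs_of_nonneg (add_nonneg ha hb)]
  have h6 : |a - b| * (a + b) ≤ κ * (a + b) ^ 2 + |a - b| ^ 2 / 4 / κ := by
    have : κ * (a + b) ^ 2 + |a - b| ^ 2 / 4 / κ - |a - b| * (a + b) =
        (κ * (a + b) - |a - b| / 2) ^ 2 / κ := by field_simp; ring
    have h7 : 0 ≤ (κ * (a + b) - |a - b| / 2) ^ 2 / κ := by positivity
    linarith
  rw [sq_abs] at h6
  have h8 : κ * (a + b) ^ 2 ≤ 2 * κ * (a ^ 2 + b ^ 2) := by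
    nlinarith [mul_nonneg hκ.le (sq_nonneg (a - b))]
  linarith

section Fin
variable {α : Type*} [Fintype α]

/-- Shannon entropy of a finite nonnegative measure. -/
noncomputable def Sh (m : α → ℝ) : ℝ := ∑ z, negMulLog (m z)

/-- Total mass. -/
noncomputable def mass (m : α → ℝ) : ℝ := ∑ z, m z

/-- Homogeneous relative entropy with respect to the uniform distribution. -/
noncomputable def D (m : α → ℝ) : ℝ :=
  negMulLog (mass m) + mass m * log (Fintype.card α) - Sh m

lemma mass_nonneg {m : α → ℝ} (hm : ∀ z, 0 ≤ m z) : 0 ≤ mass m :=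
  Finset.sum_nonneg fun z _ => hm z

lemma mass_add (m m' : α → ℝ) : mass (m + m') = mass m + mass m' := by
  simp [mass, Finset.sum_add_distrib]

lemma mass_smul (c : ℝ) (m : α → ℝ) : mass (c • m) = c * mass m := by
  simp [mass, Finset.mul_sum]

lemma eq_zero_of_mass {m : α → ℝ} (hm : ∀ z, 0 ≤ m z) (h : mass m = 0) (z : α) : m z = 0 :=
  (Finset.sum_eq_zero_iff_of_nonneg (fun i _ => hm i)).mp h z (Finset.mem_univ z)

lemma D_le {m : α → ℝ} (hm : ∀ z, 0 ≤ m z) : D m ≤ mass m * log (Fintype.card α) := by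
  have := eta_sum_le Finset.univ m hm
  unfold D Sh mass at *
  linarith

lemma Sh_le_gibbs {m w : α → ℝ} (hm : ∀ z, 0 ≤ m z) (hw : ∀ z, 0 < w z) :
    Sh m ≤ -(∑ z, m z * log (w z)) + (mass w - mass m) := by
  unfold Sh mass
  rw [← Finset.sum_sub_distrib, ← Finset.sum_neg_distrib, ← Finset.sum_add_distrib]
  exact Finset.sum_le_sum fun z _ => gibbs (hm z) (hw z)

lemma D_nonneg [Nonempty α] {m : α → ℝ} (hm : ∀ z, 0 ≤ m z) : 0 ≤ D m := by
  have hN : (0 : ℝ) < Fintype.card α := by exact_mod_cast Fintype.card_pos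
  rcases (mass_nonneg hm).eq_or_lt with h | h
  · have h0 := eq_zero_of_mass hm h.symm
    simp [D, Sh, ← h, h0]
  · have h1 := Sh_le_gibbs (w := fun _ => mass m / Fintype.card α) hm (fun _ => div_pos h hN)
    have h2 : mass (fun _ : α => mass m / Fintype.card α) = mass m := by
      simp only [mass, Finset.sum_const, Finset.card_univ, nsmul_eq_mul]
      field_simp
    rw [h2, ← Finset.sum_mul, Real.log_div h.ne' hN.ne'] at h1
    unfold D
    have h3 : ∑ z, m z = mass m := rfl
    rw [h3] at h1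
    unfold negMulLog
    linarith

lemma D_add_le {m m' : α → ℝ} (hm : ∀ z, 0 ≤ m z) (hm' : ∀ z, 0 ≤ m' z) :
    D (m + m') ≤ D m + D m' := by
  have h := sum_phi_le Finset.univ m m' hm hm'
  rw [Finset.sum_sub_distrib, Finset.sum_add_distrib] at h
  unfold D
  rw [mass_add]
  unfold Sh mass
  simp only [Pi.add_apply]
  linarith

lemma D_add_ge {m m' : α → ℝ} (hm : ∀ z, 0 ≤ m z) (hm' : ∀ z, 0 ≤ m' z) :
    D m + D m' ≤ D (m + m') + mass (m + m') * log 2 := by
  have h := eta_two (mass_nonneg hm) (mass_nonneg hm')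
  have h2 : Sh (m + m') ≤ Sh m + Sh m' := by
    unfold Sh
    rw [← Finset.sum_add_distrib]
    exact Finset.sum_le_sum fun z _ => phi_nonneg (hm z) (hm' z)
  unfold D
  rw [mass_add]
  linarith

lemma D_smul (c : ℝ) (m : α → ℝ) : D (c • m) = c * D m := by
  unfold D
  rw [mass_smul]
  have h : Sh (c • m) = mass m * negMulLog c + c * Sh m := by
    unfold Sh mass
    rw [Finset.sum_mul, Finset.mul_sum, ← Finset.sum_add_distrib]
    exact Finset.sum_congr rfl fun z _ => by
      simp only [Pi.smul_apply, smul_eq_mul, Real.negMulLog_mul]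
  rw [h, Real.negMulLog_mul]
  ring

/-- A measure with small relative entropy charges every large set. -/
lemma mass_on_ge [Nonempty α] [DecidableEq α] {m : α → ℝ} (hm : ∀ z, 0 ≤ m z) (A : Finset α) :
    mass m * ((A.card : ℝ) / Fintype.card α) / 2 - D m ≤ ∑ z ∈ A, m z := by
  have hN : (0 : ℝ) < Fintype.card α := by exact_mod_cast Fintype.card_pos
  have hA : 0 ≤ ∑ z ∈ A, m z := Finset.sum_nonneg fun z _ => hm z
  rcases (mass_nonneg hm).eq_or_lt with h | h
  · have := D_nonneg hm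
    rw [← h]; simp; linarith
  have hM : 0 < mass m / Fintype.card α := div_pos h hN
  have h1 := Sh_le_gibbs
    (w := fun z => mass m / Fintype.card α * (if z ∈ A then 1 / 2 else 1)) hm
    (fun z => by split_ifs <;> positivity)
  have h2 : mass (fun z : α => mass m / Fintype.card α * (if z ∈ A then (1 / 2 : ℝ) else 1)) =
      mass m - mass m * ((A.card : ℝ) / Fintype.card α) / 2 := by
    have e : ∀ z : α, (if z ∈ A then (1 / 2 : ℝ) else 1) =
        1 - (1 / 2) * (if z ∈ A then (1 : ℝ) else 0) := by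
      intro z; split_ifs <;> norm_num
    simp only [mass, e, ← Finset.mul_sum, Finset.sum_sub_distrib, Finset.sum_const,
      Finset.card_univ, nsmul_eq_mul, Finset.sum_ite_mem, Finset.univ_inter]
    field_simp
  have h3 : ∑ z, m z * log (mass m / Fintype.card α * (if z ∈ A then (1 / 2 : ℝ) else 1)) =
      mass m * (log (mass m) - log (Fintype.card α)) - (∑ z ∈ A, m z) * log 2 := by
    have e : ∀ z : α, m z * log (mass m / Fintype.card α * (if z ∈ A then (1 / 2 : ℝ) else 1)) =
        m z * (log (mass m) - log (Fintype.card α)) - (if z ∈ A then m z else 0) * log 2 := by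
      intro z
      split_ifs
      · rw [Real.log_mul hM.ne' (by norm_num), Real.log_div h.ne' hN.ne', one_div, Real.log_inv]
        ring
      · rw [mul_one, Real.log_div h.ne' hN.ne']; ring
    simp only [e, Finset.sum_sub_distrib, ← Finset.sum_mul, Finset.sum_ite_mem, Finset.univ_inter]
    rfl
  rw [h2, h3] at h1
  have h4 : log 2 ≤ (1 : ℝ) := by
    have := Real.log_le_sub_one_of_pos (show (0 : ℝ) < 2 by norm_num); linarith
  have h5 : (∑ z ∈ A, m z) * log 2 ≤ ∑ z ∈ A, m z := by nlinarith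
  unfold D negMulLog
  linarith

lemma l1_le_gap {m m' : α → ℝ} (hm : ∀ z, 0 ≤ m z) (hm' : ∀ z, 0 ≤ m' z) {κ : ℝ} (hκ : 0 < κ) :
    ∑ z, |m z - m' z| ≤ 2 * κ * (mass m + mass m') +
      (Sh (fun z => (m z + m' z) / 2) - (Sh m + Sh m') / 2) / κ := by
  have h := Finset.sum_le_sum fun z (_ : z ∈ (Finset.univ : Finset α)) =>
    abs_sub_le_gap (hm z) (hm' z) hκ
  refine h.trans (le_of_eq ?_)
  unfold Sh mass
  rw [Finset.sum_add_distrib, ← Finset.mul_sum, ← Finset.sum_div, Finset.sum_sub_distrib,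
    ← Finset.sum_div, Finset.sum_add_distrib, Finset.sum_add_distrib]

lemma continuous_Sh : Continuous (Sh : (α → ℝ) → ℝ) := by
  unfold Sh
  exact continuous_finsetSum _ fun z _ => Real.continuous_negMulLog.comp (continuous_apply z)

end Fin

end Pool.Agent.H93Z.Cens
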