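import Pool.Agent.H93Z.Cens.Pair

/-! Small entropy production forces closeness to the uniform measure. -/

set_option autoImplicit false
set_option linter.unusedSectionVars false

namespace Pool.Agent.H93Z.Cens

open Real Finset

variable {ι : Type*} [Fintype ι] [DecidableEq ι] [Nonempty ι]

lemma exists_reg (c : Bool → Bool) {A : Finset (ι → Bool)} (hA : Conv c A)
    {ν : (ι → Bool) → ℝ} (hν : ∀ z, 0 ≤ ν z) (hνA : ∀ z, z ∉ A → ν z = 0) :
    ∃ ρ : (ι → Bool) → ℝ, (∀ z, 0 ≤ ρ z) ∧ (∀ z, z ∉ A → ρ z = 0) ∧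
      (∀ x ∈ A, ∀ y ∈ A, R c univ x y → ρ x ≤ ρ y) ∧
      ∀ κ : ℝ, 0 < κ → ∑ z, |ν z - ρ z| ≤
        4 * κ * mass ν + Fintype.card ι * (D ν - D (PL A ν)) / 2 / κ := by
  set S : Set ((ι → Bool) → ℝ) :=
    {ρ | (∀ z, 0 ≤ ρ z) ∧ (∀ z, z ∉ A → ρ z = 0) ∧ Dom c A ν ρ} with hS
  have hcl : IsClosed S := by
    simp only [hS, Dom, Set.ofPred_and, Set.ofPred_forall]
    refine IsClosed.inter (isClosed_iInter fun z => isClosed_le continuous_const
      (continuous_apply z)) (IsClosed.inter (isClosed_iInter fun z => isClosed_iInter fun _ =>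
        isClosed_eq (continuous_apply z) continuous_const) (isClosed_iInter fun φ =>
          isClosed_iInter fun _ => isClosed_le (by fun_prop) continuous_const))
  have hcp : IsCompact S := by
    refine (isCompact_Icc (a := (0 : (ι → Bool) → ℝ)) (b := fun _ => mass ν)).of_isClosed_subset
      hcl fun ρ hρ => ⟨hρ.1, fun z => ?_⟩
    rw [← Dom_mass hρ.2.2]
    exact Finset.single_le_sum (fun w _ => hρ.1 w) (mem_univ z)
  have hνS : ν ∈ S := ⟨hν, hνA, fun _ _ => le_rfl⟩
  obtain ⟨ρ, hρ, hmax⟩ := hcp.exists_isMaxOn ⟨ν, hνS⟩ continuous_Sh.continuousOn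
  refine ⟨ρ, hρ.1, hρ.2.1, ?_, ?_⟩
  · intro x hx y hy hR
    by_contra hlt
    push Not at hlt
    have hxy : x ≠ y := by rintro rfl; exact lt_irrefl _ hlt
    set ρ' : (ι → Bool) → ℝ := fun z => if z = x ∨ z = y then (ρ x + ρ y) / 2 else ρ z with hρ'
    have key : ∀ F : (ι → Bool) → ℝ → ℝ, ∑ z, F z (ρ' z) - ∑ z, F z (ρ z) =
        F x ((ρ x + ρ y) / 2) - F x (ρ x) + (F y ((ρ x + ρ y) / 2) - F y (ρ y)) := by
      intro F
      rw [← Finset.sum_sub_distrib, ← Finset.sum_subset (subset_univ {x, y}), Finset.sum_pair hxy]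
      · simp [hρ']
      · intro z _ hz
        simp only [mem_insert, mem_singleton] at hz
        simp [hρ', hz]
    have hmem : ρ' ∈ S := by
      refine ⟨fun z => ?_, fun z hz => ?_, fun φ hφ => ?_⟩
      · simp only [hρ']; split_ifs
        · have := hρ.1 x; have := hρ.1 y; positivity
        · exact hρ.1 z
      · have h1 : ¬ (z = x ∨ z = y) := by
          rintro (rfl | rfl)
          · exact hz hx
          · exact hz hy
        simp only [hρ', if_neg h1]; exact hρ.2.1 z hz
      · have h1 := key (fun z t => t * φ z)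
        have h2 := hρ.2.2 φ hφ
        have h3 := hφ x hx y hy hR
        nlinarith
    have h1 := hmax hmem
    have h2 := key (fun _ t => negMulLog t)
    have h3 := Real.strictConcaveOn_negMulLog.2 (hρ.1 x) (hρ.1 y) hlt.ne'
      (show (0 : ℝ) < 1 / 2 by norm_num) (show (0 : ℝ) < 1 / 2 by norm_num) (by norm_num)
    simp only [smul_eq_mul] at h3
    have e : 1 / 2 * ρ x + 1 / 2 * ρ y = (ρ x + ρ y) / 2 := by ring
    rw [e] at h3
    have h4 : Sh ρ' ≤ Sh ρ := h1
    unfold Sh at h4
    linarith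
  · intro κ hκ
    have h1 := l1_le_gap hν hρ.1 hκ
    have hmem : (fun z => (ν z + ρ z) / 2) ∈ S := by
      refine ⟨fun z => ?_, fun z hz => ?_, fun φ hφ => ?_⟩
      · have := hν z; have := hρ.1 z; positivity
      · simp [hνA z hz, hρ.2.1 z hz]
      · have h2 := hρ.2.2 φ hφ
        have e : ∑ z, (ν z + ρ z) / 2 * φ z = (∑ z, ν z * φ z + ∑ z, ρ z * φ z) / 2 := by
          rw [← Finset.sum_add_distrib, Finset.sum_div]
          exact Finset.sum_congr rfl fun z _ => by ring
        rw [e]; linarith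
    have h2 : Sh (fun z => (ν z + ρ z) / 2) ≤ Sh ρ := hmax hmem
    have h3 := core' c hA hν hνA hρ.1 hρ.2.1 hρ.2.2
    rw [Dom_mass hρ.2.2] at h1
    have h4 : (Sh (fun z => (ν z + ρ z) / 2) - (Sh ν + Sh ρ) / 2) / κ ≤
        Fintype.card ι * (D ν - D (PL A ν)) / 2 / κ :=
      div_le_div_of_nonneg_right (by linarith) hκ.le
    linarith

lemma mass_unif (A : Finset (ι → Bool)) (u : ℝ) : mass (unif A u) = A.card * u := by
  simp [mass, unif, Finset.sum_ite_mem]

lemma close {A : Finset (ι → Bool)} (hA : Up A) {a : ℝ} (ha : 0 < a)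
    (haA : a ≤ (A.card : ℝ) / Fintype.card (ι → Bool))
    {ν : (ι → Bool) → ℝ} (hν : ∀ z, 0 ≤ ν z) (hνA : ∀ z, z ∉ A → ν z = 0)
    (hE : Fintype.card ι * (D ν - D (PL A ν)) ≤ a ^ 2 / 2 ^ 23 * mass ν) :
    ∑ z, |ν z - unif A (mass ν / A.card) z| ≤ mass ν / 4 := by
  have hN : (0 : ℝ) < Fintype.card (ι → Bool) := by exact_mod_cast Fintype.card_pos
  have hM := mass_nonneg hν
  have hAc : (0 : ℝ) < A.card := by
    by_contra h
    have : (A.card : ℝ) / Fintype.card (ι → Bool) ≤ 0 :=
      div_nonpos_of_nonpos_of_nonneg (not_lt.mp h) hN.le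
    linarith
  have ha1 : a ≤ 1 := haA.trans ((div_le_one hN).mpr (by exact_mod_cast A.card_le_univ))
  obtain ⟨g, hg0, hgA, hgm, hg⟩ := exists_reg id hA.conv_id hν hνA
  obtain ⟨h, hh0, hhA, hhm, hh⟩ := exists_reg not hA.conv_not hν hνA
  set M := mass ν with hMdef
  set u := M / A.card with hu
  have hu0 : 0 ≤ u := by positivity
  have hδ : 4 * (a / 8192) * M + Fintype.card ι * (D ν - D (PL A ν)) / 2 / (a / 8192) ≤
      a / 1024 * M := by
    have h1 : Fintype.card ι * (D ν - D (PL A ν)) / 2 / (a / 8192) ≤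
        a ^ 2 / 2 ^ 23 * M / 2 / (a / 8192) :=
      div_le_div_of_nonneg_right (by linarith) (by positivity)
    have h2 : a ^ 2 / 2 ^ 23 * M / 2 / (a / 8192) = a / 2048 * M := by field_simp; ring
    linarith
  have hg' := (hg (a / 8192) (by positivity)).trans hδ
  have hh' := (hh (a / 8192) (by positivity)).trans hδ
  set F : (ι → Bool) → ℝ := fun z => max (h z - unif A u z) 0 with hF
  set G : (ι → Bool) → ℝ := fun z => max (unif A u z - g z) 0 with hG
  have hFm : Monotone F := by
    intro x y hxy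
    by_cases hx : x ∈ A
    · have hy := hA x hx y hxy
      have := hhm x hx y hy ((R_not _ _).mpr hxy)
      simp only [hF, unif, hx, hy, if_true]
      exact max_le_max (by linarith) le_rfl
    · simp only [hF, unif, hx, hhA x hx]
      simp
  have hGm : Monotone G := by
    intro x y hxy
    by_cases hx : x ∈ A
    · have hy := hA x hx y hxy
      have := hgm y hy x hx ((R_id _ _).mpr hxy)
      simp only [hG, unif, hx, hy, if_true]
      exact max_le_max (by linarith) le_rfl
    · simp only [hG, unif, hx, hgA x hx]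
      simp
  have hfkg := fkg F G (fun _ => (1 : ℝ)) (fun _ => zero_le_one) (fun z => le_max_right _ _)
    (fun z => le_max_right _ _) hFm hGm (fun _ _ => le_rfl)
  simp only [one_mul, Finset.sum_const, Finset.card_univ, nsmul_eq_mul, mul_one] at hfkg
  have hFG : ∑ z, F z * G z ≤ u * (a / 512 * M) := by
    have h1 : ∀ z, F z * G z ≤ u * (|ν z - g z| + |ν z - h z|) := by
      intro z
      have h2 : |h z - g z| ≤ |ν z - g z| + |ν z - h z| := by
        have := abs_sub_le (h z) (ν z) (g z)
        rw [abs_sub_comm (h z) (ν z)] at this; linarith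
      have hun : 0 ≤ unif A u z ∧ unif A u z ≤ u := by
        unfold unif; split_ifs <;> simp [hu0]
      by_cases h3 : unif A u z ≤ g z
      · have : G z = 0 := max_eq_right (by linarith)
        rw [this, mul_zero]; positivity
      · push Not at h3
        have h4 : G z ≤ u := max_le (by linarith [hg0 z]) hu0
        have h5 : F z ≤ |h z - g z| :=
          max_le ((by linarith : h z - unif A u z ≤ h z - g z).trans (le_abs_self _))
            (abs_nonneg _)
        have h6 : 0 ≤ F z := le_max_right _ _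
        have h7 : 0 ≤ G z := le_max_right _ _
        nlinarith
    refine (Finset.sum_le_sum fun z _ => h1 z).trans ?_
    rw [← Finset.mul_sum, Finset.sum_add_distrib]
    exact mul_le_mul_of_nonneg_left (by linarith) hu0
  have hNu : (Fintype.card (ι → Bool) : ℝ) * (u * (a / 512 * M)) ≤ M ^ 2 / 256 := by
    have h1 : a * Fintype.card (ι → Bool) ≤ A.card := by rwa [← le_div_iff₀ hN]
    have h2 : (Fintype.card (ι → Bool) : ℝ) * (u * (a / 512 * M)) =
        (a * Fintype.card (ι → Bool) / A.card) * (M ^ 2 / 512) := by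
      rw [hu]; field_simp
    have h3 : a * Fintype.card (ι → Bool) / A.card ≤ 1 := (div_le_one hAc).mpr h1
    rw [h2]
    nlinarith [sq_nonneg M]
  set η := (∑ z, |ν z - unif A u z|) / 2 with hη
  have hzero : ∑ z, (ν z - unif A u z) = 0 := by
    rw [Finset.sum_sub_distrib]
    have := mass_unif A u
    unfold mass at this
    rw [this, hu]
    have e : ∑ z, ν z = M := rfl
    rw [e]; field_simp; ring
  have hF' : η ≤ ∑ z, F z + a / 1024 * M := by
    have h1 : ∀ z, (|ν z - unif A u z| + (ν z - unif A u z)) / 2 ≤ F z + |ν z - h z| := by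
      intro z
      have h2 : h z - unif A u z ≤ F z := le_max_left _ _
      have h3 : 0 ≤ F z := le_max_right _ _
      have h4 := le_abs_self (ν z - h z)
      have h5 := abs_nonneg (ν z - h z)
      rcases abs_cases (ν z - unif A u z) with h6 | h6 <;> linarith [h6.1]
    have h2 := Finset.sum_le_sum fun z (_ : z ∈ univ) => h1 z
    rw [← Finset.sum_div, Finset.sum_add_distrib, hzero, Finset.sum_add_distrib] at h2
    linarith
  have hG' : η ≤ ∑ z, G z + a / 1024 * M := by
    have h1 : ∀ z, (|ν z - unif A u z| - (ν z - unif A u z)) / 2 ≤ G z + |ν z - g z| := by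
      intro z
      have h2 : unif A u z - g z ≤ G z := le_max_left _ _
      have h3 : 0 ≤ G z := le_max_right _ _
      have h4 := neg_abs_le (ν z - g z)
      have h5 := abs_nonneg (ν z - g z)
      rcases abs_cases (ν z - unif A u z) with h6 | h6 <;> linarith [h6.1]
    have h2 := Finset.sum_le_sum fun z (_ : z ∈ univ) => h1 z
    rw [← Finset.sum_div, Finset.sum_sub_distrib, hzero, Finset.sum_add_distrib] at h2
    linarith
  have hprod : (∑ z, F z) * ∑ z, G z ≤ M ^ 2 / 256 :=
    hfkg.trans ((mul_le_mul_of_nonneg_left hFG hN.le).trans hNu)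
  by_contra hc
  push Not at hc
  have h1 : M / 8 < η := by rw [hη]; linarith
  have h2 : a / 1024 * M ≤ M / 16 := by nlinarith
  have h3 : M / 16 < ∑ z, F z := by linarith
  have h4 : M / 16 < ∑ z, G z := by linarith
  have h5 : M / 16 * (M / 16) < (∑ z, F z) * ∑ z, G z :=
    mul_lt_mul'' h3 h4 (by positivity) (by positivity)
  nlinarith

end Pool.Agent.H93Z.Cens
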