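import Pool.Agent.H93Z.Cens.Chain

/-! The coupling of the censored walk with the free walk, and the splitting step. -/

set_option autoImplicit false
set_option linter.unusedSectionVars false

namespace Pool.Agent.H93Z.Cens

open Real Finset

section Push
variable {α β γ : Type*} [Fintype α] [Fintype β] [DecidableEq β] [DecidableEq γ]

/-- Push-forward of a finite measure. -/
noncomputable def push (f : α → β) : (α → ℝ) →ₗ[ℝ] (β → ℝ) where
  toFun m := fun z => ∑ w, if f w = z then m w else 0
  map_add' m m' := by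
    funext z
    simp only [Pi.add_apply]
    rw [← Finset.sum_add_distrib]
    exact Finset.sum_congr rfl fun w _ => by split_ifs <;> simp
  map_smul' c m := by
    funext z
    simp only [Pi.smul_apply, smul_eq_mul, RingHom.id_apply]
    rw [Finset.mul_sum]
    exact Finset.sum_congr rfl fun w _ => by split_ifs <;> simp

lemma push_apply (f : α → β) (m : α → ℝ) (z : β) :
    push f m z = ∑ w, if f w = z then m w else 0 := rfl

lemma sum_push (f : α → β) (m : α → ℝ) (φ : β → ℝ) :
    ∑ z, push f m z * φ z = ∑ w, m w * φ (f w) := by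
  simp only [push_apply, Finset.sum_mul]
  rw [Finset.sum_comm]
  refine Finset.sum_congr rfl fun w _ => ?_
  simp

lemma push_push (f : α → β) (g : β → γ) (m : α → ℝ) :
    push g (push f m) = push (fun w => g (f w)) m := by
  funext z
  have := sum_push f m (fun y => if g y = z then 1 else 0)
  simp only [mul_ite, mul_one, mul_zero] at this
  exact this

lemma mass_push (f : α → β) (m : α → ℝ) : mass (push f m) = mass m := by
  have := sum_push f m (fun _ => 1)
  simpa [mass] using this

lemma push_nonneg (f : α → β) {m : α → ℝ} (h : ∀ w, 0 ≤ m w) (z : β) : 0 ≤ push f m z :=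
  Finset.sum_nonneg fun w _ => by split_ifs; exacts [h w, le_rfl]

lemma push_ne_zero (f : α → β) {m : α → ℝ} {z : β} (h : push f m z ≠ 0) :
    ∃ w, f w = z ∧ m w ≠ 0 := by
  obtain ⟨w, -, hw⟩ := Finset.exists_ne_zero_of_sum_ne_zero h
  by_cases h1 : f w = z
  · exact ⟨w, h1, by simpa [h1] using hw⟩
  · simp [h1] at hw

end Push

variable {ι : Type*} [Fintype ι] [DecidableEq ι]

/-- Set coordinate `k` to `b` if the result lies in `A`. -/
def upd (A : Finset (ι → Bool)) (k : ι) (b : Bool) (x : ι → Bool) : ι → Bool :=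
  if Function.update x k b ∈ A then Function.update x k b else x

lemma push_upd (A : Finset (ι → Bool)) (k : ι) {ν : (ι → Bool) → ℝ} (h : ∀ z, z ∉ A → ν z = 0)
    (z : ι → Bool) :
    push (upd A k true) ν z + push (upd A k false) ν z = 2 * Pk A k ν z := by
  have e : ∀ w, (if upd A k true w = z then ν w else 0) + (if upd A k false w = z then ν w else 0) =
      (if w = z then ν w else 0) + (if cf A k w = z then ν w else 0) := by
    intro w
    by_cases hw : w ∈ A
    · have h1 : upd A k (w k) w = w := by simp [upd]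
      have h2 : upd A k (!w k) w = cf A k w := by simp [upd, cf, fl, hw]
      cases hk : w k
      · rw [hk] at h1 h2; simp only [Bool.not_false] at h2; rw [h1, h2, add_comm]
      · rw [hk] at h1 h2; simp only [Bool.not_true] at h2; rw [h1, h2]
    · simp [h w hw]
  rw [push_apply, push_apply, ← Finset.sum_add_distrib]
  simp only [e, Finset.sum_add_distrib]
  rw [← sum_cf A k (fun w => if cf A k w = z then ν w else 0)]
  simp only [cf_cf, Finset.sum_ite_eq', mem_univ, if_true, Pk_eq]
  ring

/-- The joint update. -/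
def Phi (A : Finset (ι → Bool)) (k : ι) (b : Bool) (w : (ι → Bool) × (ι → Bool)) :
    (ι → Bool) × (ι → Bool) := (upd A k b w.1, upd univ k b w.2)

/-- One step of the coupled chain acting on measures on pairs. -/
noncomputable def KL (A : Finset (ι → Bool)) :
    ((ι → Bool) × (ι → Bool) → ℝ) →ₗ[ℝ] ((ι → Bool) × (ι → Bool) → ℝ) :=
  (1 / (2 * Fintype.card ι) : ℝ) • ∑ k, (push (Phi A k true) + push (Phi A k false))

/-- Nonnegative measures on pairs `(x, y)` with `x ∈ A` and `y ≤ x`. -/
def Good (A : Finset (ι → Bool)) (l : (ι → Bool) × (ι → Bool) → ℝ) : Prop :=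
  (∀ w, 0 ≤ l w) ∧ ∀ w, l w ≠ 0 → w.1 ∈ A ∧ w.2 ≤ w.1

/-- `A` is closed upwards. -/
def Up (A : Finset (ι → Bool)) : Prop := ∀ x ∈ A, ∀ y, x ≤ y → y ∈ A

lemma KL_apply (A : Finset (ι → Bool)) (l : (ι → Bool) × (ι → Bool) → ℝ) :
    KL A l = (1 / (2 * Fintype.card ι) : ℝ) •
      ∑ k, (push (Phi A k true) l + push (Phi A k false) l) := by
  simp [KL, LinearMap.sum_apply]

lemma Phi_good {A : Finset (ι → Bool)} (hA : Up A) (k : ι) (b : Bool)
    {w : (ι → Bool) × (ι → Bool)} (h : w.1 ∈ A ∧ w.2 ≤ w.1) :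
    (Phi A k b w).1 ∈ A ∧ (Phi A k b w).2 ≤ (Phi A k b w).1 := by
  simp only [Phi, upd, mem_univ, if_true]
  split_ifs with h1
  · refine ⟨h1, fun i => ?_⟩
    by_cases hi : i = k
    · subst hi; simp
    · simpa [hi] using h.2 i
  · refine ⟨h.1, ?_⟩
    cases b
    · intro i
      by_cases hi : i = k
      · subst hi; simp
      · simpa [hi] using h.2 i
    · exfalso
      apply h1
      refine hA _ h.1 _ fun i => ?_
      by_cases hi : i = k
      · subst hi; simp
      · simp [hi]

lemma Good.push {A : Finset (ι → Bool)} (hA : Up A) (k : ι) (b : Bool)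
    {l : (ι → Bool) × (ι → Bool) → ℝ} (h : Good A l) : Good A (push (Phi A k b) l) := by
  refine ⟨push_nonneg _ h.1, fun w hw => ?_⟩
  obtain ⟨w', rfl, hw'⟩ := push_ne_zero _ hw
  exact Phi_good hA k b (h.2 w' hw')

lemma Good.KL {A : Finset (ι → Bool)} (hA : Up A) {l : (ι → Bool) × (ι → Bool) → ℝ}
    (h : Good A l) : Good A (KL A l) := by
  rw [KL_apply]
  constructor
  · intro w
    simp only [Pi.smul_apply, Finset.sum_apply, Pi.add_apply, smul_eq_mul]
    refine mul_nonneg (by positivity) (Finset.sum_nonneg fun k _ => ?_)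
    exact add_nonneg ((h.push hA k true).1 w) ((h.push hA k false).1 w)
  · intro w hw
    simp only [Pi.smul_apply, Finset.sum_apply, Pi.add_apply, smul_eq_mul] at hw
    obtain ⟨k, -, hk⟩ := Finset.exists_ne_zero_of_sum_ne_zero (right_ne_zero_of_mul hw)
    by_cases h1 : Cens.push (Phi A k true) l w = 0
    · rw [h1, zero_add] at hk; exact (h.push hA k false).2 w hk
    · exact (h.push hA k true).2 w h1

lemma Good.KLp {A : Finset (ι → Bool)} (hA : Up A) {l : (ι → Bool) × (ι → Bool) → ℝ}
    (h : Good A l) (t : ℕ) : Good A ((Cens.KL A ^ t) l) := by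
  induction t with
  | zero => simpa using h
  | succ t ih => rw [pow_succ_apply]; exact ih.KL hA

lemma Good.fst_supp {A : Finset (ι → Bool)} {l : (ι → Bool) × (ι → Bool) → ℝ}
    (h : Good A l) (z : ι → Bool) (hz : z ∉ A) : Cens.push Prod.fst l z = 0 := by
  by_contra h1
  obtain ⟨w, rfl, hw⟩ := push_ne_zero _ h1
  exact hz (h.2 w hw).1

variable [Nonempty ι]

lemma avg_upd (A : Finset (ι → Bool)) {ν : (ι → Bool) → ℝ} (h : ∀ z, z ∉ A → ν z = 0) :
    (1 / (2 * Fintype.card ι) : ℝ) • ∑ k, (push (upd A k true) ν + push (upd A k false) ν) =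
      PL A ν := by
  have hn := card_pos' (ι := ι)
  funext z
  simp only [Pi.smul_apply, Finset.sum_apply, Pi.add_apply, smul_eq_mul, push_upd A _ h, PL_apply,
    ← Finset.mul_sum]
  field_simp

lemma fst_KL {A : Finset (ι → Bool)} {l : (ι → Bool) × (ι → Bool) → ℝ} (h : Good A l) :
    push Prod.fst (KL A l) = PL A (push Prod.fst l) := by
  rw [KL_apply, ← avg_upd A h.fst_supp]
  simp only [map_smul, map_sum, map_add, push_push, Phi]

lemma snd_KL (A : Finset (ι → Bool)) (l : (ι → Bool) × (ι → Bool) → ℝ) :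
    push Prod.snd (KL A l) = PL univ (push Prod.snd l) := by
  rw [KL_apply, ← avg_upd univ (fun z hz => absurd (mem_univ z) hz)]
  simp only [map_smul, map_sum, map_add, push_push, Phi]

lemma fst_KLp {A : Finset (ι → Bool)} (hA : Up A) {l : (ι → Bool) × (ι → Bool) → ℝ}
    (h : Good A l) (t : ℕ) :
    push Prod.fst ((KL A ^ t) l) = (PL A ^ t) (push Prod.fst l) := by
  induction t with
  | zero => simp
  | succ t ih => rw [pow_succ_apply, pow_succ_apply, fst_KL (h.KLp hA t), ih]

lemma snd_KLp (A : Finset (ι → Bool)) (l : (ι → Bool) × (ι → Bool) → ℝ) (t : ℕ) :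
    push Prod.snd ((KL A ^ t) l) = (PL univ ^ t) (push Prod.snd l) := by
  induction t with
  | zero => simp
  | succ t ih => rw [pow_succ_apply, pow_succ_apply, snd_KL, ih]

lemma mass_KLp (A : Finset (ι → Bool)) (l : (ι → Bool) × (ι → Bool) → ℝ) (t : ℕ) :
    mass ((KL A ^ t) l) = mass l := by
  rw [← mass_push Prod.snd, snd_KLp, mass_PLp, mass_push]

lemma R_id (x y : ι → Bool) : R id univ x y ↔ y ≤ x := by
  refine forall_congr' fun i => ?_
  cases x i <;> cases y i <;> simp

lemma R_not (x y : ι → Bool) : R not univ x y ↔ x ≤ y := by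
  refine forall_congr' fun i => ?_
  cases x i <;> cases y i <;> simp

lemma Up.conv_id {A : Finset (ι → Bool)} (hA : Up A) : Conv id A :=
  fun _ _ y hy w _ h => hA y hy w ((R_id _ _).mp h)

lemma Up.conv_not {A : Finset (ι → Bool)} (hA : Up A) : Conv not A :=
  fun x hx _ _ w h _ => hA x hx w ((R_not _ _).mp h)

lemma split {A : Finset (ι → Bool)} (hA : Up A) {a : ℝ} (ha : 0 < a)
    (haA : a ≤ (A.card : ℝ) / Fintype.card (ι → Bool))
    {l : (ι → Bool) × (ι → Bool) → ℝ} (h : Good A l)
    (hD : D (push Prod.snd l) ≤ a / 4 * mass l) :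
    ∃ l1 l2, Good A l1 ∧ Good A l2 ∧ l = l1 + l2 ∧ mass l1 = a / 4 * mass l ∧
      mass l2 = (1 - a / 4) * mass l ∧
      D (push Prod.fst l1) ≤ Fintype.card ι * (D (push Prod.fst l) - D (PL A (push Prod.fst l)))
        + D (push Prod.snd l) + 2 * mass l * log 2 ∧
      D (push Prod.fst l2) ≤ D (push Prod.fst l) + mass l * log 2 ∧
      D (push Prod.snd l1) ≤ D (push Prod.snd l) + mass l * log 2 ∧
      D (push Prod.snd l2) ≤ D (push Prod.snd l) + mass l * log 2 := by
  have hM := mass_nonneg h.1
  set lg : (ι → Bool) × (ι → Bool) → ℝ := fun w => if w.2 ∈ A then l w else 0 with hlg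
  set lb : (ι → Bool) × (ι → Bool) → ℝ := fun w => if w.2 ∈ A then 0 else l w with hlb
  have hg0 : ∀ w, 0 ≤ lg w := fun w => by simp only [hlg]; split_ifs; exacts [h.1 w, le_rfl]
  have hb0 : ∀ w, 0 ≤ lb w := fun w => by simp only [hlb]; split_ifs; exacts [le_rfl, h.1 w]
  have hsum : l = lg + lb := by
    funext w; simp only [hlg, hlb, Pi.add_apply]; split_ifs <;> simp
  have hgb : Good A lb := ⟨hb0, fun w hw => h.2 w (by
    intro h0; apply hw; simp [hlb, h0])⟩
  -- general two-part bounds
  have two : ∀ (f : (ι → Bool) × (ι → Bool) → (ι → Bool)) (u v : (ι → Bool) × (ι → Bool) → ℝ),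
      (∀ w, 0 ≤ u w) → (∀ w, 0 ≤ v w) → l = u + v →
      D (push f u) + D (push f v) ≤ D (push f l) + mass l * log 2 := by
    intro f u v hu hv e
    have := D_add_ge (push_nonneg f hu) (push_nonneg f hv)
    rwa [← map_add, ← e, mass_push] at this
  -- the main estimate
  have hmain : D (push Prod.fst lg) ≤
      Fintype.card ι * (D (push Prod.fst l) - D (PL A (push Prod.fst l)))
        + D (push Prod.snd l) + 2 * mass l * log 2 := by
    have hdom : Dom id A (push Prod.fst l) (push Prod.snd lg + push Prod.fst lb) := by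
      intro φ hφ
      simp only [Pi.add_apply, add_mul, Finset.sum_add_distrib, sum_push]
      rw [← Finset.sum_add_distrib]
      refine Finset.sum_le_sum fun w _ => ?_
      simp only [hlg, hlb]
      split_ifs with hw
      · rw [zero_mul, add_zero]
        by_cases h0 : l w = 0
        · simp [h0]
        · exact mul_le_mul_of_nonneg_left
            (hφ _ (h.2 w h0).1 _ hw ((R_id _ _).mpr (h.2 w h0).2)) (h.1 w)
      · simp
    have h1 := core' id hA.conv_id (ρ := push Prod.snd lg + push Prod.fst lb)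
      (push_nonneg _ h.1) h.fst_supp
      (fun z => add_nonneg (push_nonneg _ hg0 z) (push_nonneg _ hb0 z)) (by
        intro z hz
        rw [Pi.add_apply, hgb.fst_supp z hz, add_zero]
        by_contra h2
        obtain ⟨w, rfl, hw⟩ := push_ne_zero _ h2
        apply hw; simp [hlg, hz]) hdom
    have h2 := Dom_mass hdom
    have h3 := D_add_le (push_nonneg Prod.snd hg0) (push_nonneg Prod.fst hb0)
    have h4 := two Prod.fst lg lb hg0 hb0 hsum
    have h5 := two Prod.snd lg lb hg0 hb0 hsum
    have h6 := D_nonneg (push_nonneg Prod.snd hb0)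
    have h7 : Sh (push Prod.snd lg + push Prod.fst lb) - Sh (push Prod.fst l) =
        D (push Prod.fst l) - D (push Prod.snd lg + push Prod.fst lb) := by
      unfold D; rw [h2]; ring
    linarith
  have hm : a / 4 * mass l ≤ mass lg := by
    have h1 := mass_on_ge (push_nonneg Prod.snd h.1) A
    rw [mass_push] at h1
    have h2 : ∑ z ∈ A, push Prod.snd l z = mass lg := by
      have := sum_push Prod.snd l (fun z => if z ∈ A then 1 else 0)
      simp only [mul_ite, mul_one, mul_zero, Finset.sum_ite_mem, Finset.univ_inter] at this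
      rw [this]; rfl
    have h3 := mul_le_mul_of_nonneg_left haA hM
    linarith
  set θ := a / 4 * mass l / mass lg with hθ
  have hθ0 : 0 ≤ θ := div_nonneg (by positivity) (mass_nonneg hg0)
  have hθ1 : θ ≤ 1 := div_le_one_of_le₀ hm (mass_nonneg hg0)
  have hθm : θ * mass lg = a / 4 * mass l := by
    rcases (mass_nonneg hg0).eq_or_lt with h0 | h0
    · rw [← h0] at hm ⊢
      have : 0 ≤ a / 4 * mass l := by positivity
      linarith
    · exact div_mul_cancel₀ _ h0.ne'
  have h10 : ∀ w, 0 ≤ (θ • lg) w := fun w => mul_nonneg hθ0 (hg0 w)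
  have h20 : ∀ w, 0 ≤ (l - θ • lg) w := fun w => by
    have e : l w = lg w + lb w := congrFun hsum w
    simp only [Pi.sub_apply, Pi.smul_apply, smul_eq_mul]
    nlinarith [hg0 w, hb0 w]
  have hs2 : l = θ • lg + (l - θ • lg) := by simp
  have hz : ∀ w, l w = 0 → lg w = 0 := fun w hw => by simp [hlg, hw]
  have hm1 : mass (θ • lg) = a / 4 * mass l := by rw [mass_smul, hθm]
  refine ⟨θ • lg, l - θ • lg, ⟨h10, fun w hw => h.2 w fun h0 => hw ?_⟩,
    ⟨h20, fun w hw => h.2 w fun h0 => hw ?_⟩, hs2, hm1, ?_, ?_, ?_, ?_, ?_⟩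
  · simp [hz w h0]
  · simp [hz w h0, h0]
  · have := congrArg mass hs2
    rw [mass_add, hm1] at this
    linarith
  · rw [map_smul, D_smul]
    have := D_nonneg (push_nonneg Prod.fst hg0)
    nlinarith
  · linarith [two Prod.fst _ _ h10 h20 hs2, D_nonneg (push_nonneg Prod.fst h10)]
  · linarith [two Prod.snd _ _ h10 h20 hs2, D_nonneg (push_nonneg Prod.snd h20)]
  · linarith [two Prod.snd _ _ h10 h20 hs2, D_nonneg (push_nonneg Prod.snd h10)]

end Pool.Agent.H93Z.Cens
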