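import Pool.Agent.H93Z.Cens.Final

/-! Iterating the splitting step, and the mixing bound for measures. -/

set_option autoImplicit false
set_option linter.unusedSectionVars false

namespace Pool.Agent.H93Z.Cens

open Real Finset

variable {ι : Type*} [Fintype ι] [DecidableEq ι] [Nonempty ι]

lemma log_two_le : log 2 ≤ (7 / 10 : ℝ) := by
  have := Real.log_two_lt_d9; linarith

/-- One round: after `(j1 + C2) * n` steps the pair measure splits into two controlled parts. -/
lemma one_round {A : Finset (ι → Bool)} (hA : Up A) {a : ℝ} (ha : 0 < a) (ha1 : a ≤ 1)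
    (haA : a ≤ (A.card : ℝ) / Fintype.card (ι → Bool))
    {j1 C2 : ℕ} (hj1 : 1 / (2 : ℝ) ^ j1 ≤ (a / 4) ^ 2) (hC2 : 128 / (a / 4) ≤ (C2 : ℝ))
    {l : (ι → Bool) × (ι → Bool) → ℝ} (h : Good A l)
    (hD : D (push Prod.snd l) ≤ mass l / (a / 4)) :
    ∃ l1 l2, Good A l1 ∧ Good A l2 ∧
      (PL A ^ ((j1 + C2) * Fintype.card ι)) (push Prod.fst l) =
        push Prod.fst l1 + push Prod.fst l2 ∧
      mass l1 = a / 4 * mass l ∧ mass l2 = (1 - a / 4) * mass l ∧
      D (push Prod.fst l1) ≤ a / 4 / 128 * D (push Prod.fst l) + 2 * mass l ∧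
      D (push Prod.fst l2) ≤ D (push Prod.fst l) + mass l ∧
      D (push Prod.snd l1) ≤ mass l ∧ D (push Prod.snd l2) ≤ mass l := by
  have hn := card_pos' (ι := ι)
  have hM := mass_nonneg h.1
  have hp : 0 < a / 4 := by positivity
  have hC2pos : (0 : ℝ) < C2 := lt_of_lt_of_le (by positivity) hC2
  have hT : 0 < C2 * Fintype.card ι :=
    Nat.mul_pos (by exact_mod_cast hC2pos) Fintype.card_pos
  set n := Fintype.card ι with hndef
  set l' := (KL A ^ (j1 * n)) l with hl'
  have hl'g : Good A l' := h.KLp hA _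
  have hl'm : mass l' = mass l := mass_KLp _ _ _
  have hs' : D (push Prod.snd l') ≤ a / 4 * mass l := by
    rw [hl', snd_KLp]
    refine (free_halves (push_nonneg _ h.1) j1).trans ?_
    have h1 : D (push Prod.snd l) / 2 ^ j1 ≤ mass l / (a / 4) / 2 ^ j1 :=
      div_le_div_of_nonneg_right hD (by positivity)
    have h2 : mass l / (a / 4) / 2 ^ j1 = mass l / (a / 4) * (1 / 2 ^ j1) := by ring
    have h3 : mass l / (a / 4) * (1 / 2 ^ j1) ≤ mass l / (a / 4) * (a / 4) ^ 2 :=
      mul_le_mul_of_nonneg_left hj1 (by positivity)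
    have h4 : mass l / (a / 4) * (a / 4) ^ 2 = a / 4 * mass l := by field_simp
    linarith
  have hf' : D (push Prod.fst l') ≤ D (push Prod.fst l) := by
    rw [hl', fst_KLp hA h]
    exact D_PLp_le A (push_nonneg _ h.1) _
  obtain ⟨s, hs, hdrop⟩ := exists_small_drop A (ν := push Prod.fst l') hT
  set l'' := (KL A ^ s) l' with hl''
  have hl''g : Good A l'' := hl'g.KLp hA _
  have hl''m : mass l'' = mass l := by rw [hl'', mass_KLp, hl'm]
  have hf'' : push Prod.fst l'' = (PL A ^ s) (push Prod.fst l') := fst_KLp hA hl'g s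
  have hs'' : D (push Prod.snd l'') ≤ a / 4 * mass l := by
    rw [hl'', snd_KLp]
    exact (D_PLp_le univ (push_nonneg _ hl'g.1) _).trans hs'
  have hfd'' : D (push Prod.fst l'') ≤ D (push Prod.fst l) := by
    rw [hf'']
    exact (D_PLp_le A (push_nonneg _ hl'g.1) _).trans hf'
  have hd0 := D_nonneg (push_nonneg Prod.fst h.1)
  have hdr : (n : ℝ) * (D (push Prod.fst l'') - D (PL A (push Prod.fst l''))) ≤
      a / 4 / 128 * D (push Prod.fst l) := by
    rw [← hf''] at hdrop
    have h1 := D_nonneg (PLp_nonneg A (push_nonneg Prod.fst hl'g.1) (C2 * n))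
    have h2 : (C2 : ℝ) * (n * (D (push Prod.fst l'') - D (PL A (push Prod.fst l'')))) ≤
        D (push Prod.fst l) := by
      push_cast at hdrop
      linarith
    have h3 : 1 ≤ C2 * (a / 4 / 128) := by
      rw [div_le_iff₀ hp] at hC2
      linarith
    by_contra hc
    push Not at hc
    have h4 := mul_lt_mul_of_pos_left hc hC2pos
    nlinarith
  obtain ⟨l1, l2, g1, g2, hsum, m1, m2, f1, f2, s1, s2⟩ :=
    split hA ha haA hl''g (by rw [hl''m]; exact hs'')
  rw [hl''m] at m1 m2 f1 f2 s1 s2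
  have hlog := log_two_le
  have hMl : mass l * log 2 ≤ 7 / 10 * mass l := by nlinarith
  have hpM : a / 4 * mass l ≤ 1 / 4 * mass l := by nlinarith
  refine ⟨(KL A ^ (C2 * n - s)) l1, (KL A ^ (C2 * n - s)) l2, g1.KLp hA _, g2.KLp hA _, ?_,
    by rw [mass_KLp, m1], by rw [mass_KLp, m2], ?_, ?_, ?_, ?_⟩
  · rw [fst_KLp hA g1, fst_KLp hA g2, ← map_add, ← map_add, ← hsum, hf'', hl', fst_KLp hA h,
      ← pow_add_apply, ← pow_add_apply]
    congr 2
    rw [Nat.add_mul]
    omega
  · rw [fst_KLp hA g1]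
    refine (D_PLp_le A (push_nonneg _ g1.1) _).trans ?_
    linarith
  · rw [fst_KLp hA g2]
    refine (D_PLp_le A (push_nonneg _ g2.1) _).trans ?_
    linarith
  · rw [snd_KLp]
    refine (D_PLp_le univ (push_nonneg _ g1.1) _).trans ?_
    linarith
  · rw [snd_KLp]
    refine (D_PLp_le univ (push_nonneg _ g2.1) _).trans ?_
    linarith

lemma D_zero {α : Type*} [Fintype α] : D (0 : α → ℝ) = 0 := by
  simp [D, mass, Sh]

lemma mass_zero {α : Type*} [Fintype α] : mass (0 : α → ℝ) = 0 := by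
  simp [mass]

lemma rounds {A : Finset (ι → Bool)} (hA : Up A) {a : ℝ} (ha : 0 < a) (ha1 : a ≤ 1)
    (haA : a ≤ (A.card : ℝ) / Fintype.card (ι → Bool))
    {j1 C2 : ℕ} (hj1 : 1 / (2 : ℝ) ^ j1 ≤ (a / 4) ^ 2) (hC2 : 128 / (a / 4) ≤ (C2 : ℝ)) (r : ℕ) :
    ∀ (l : (ι → Bool) × (ι → Bool) → ℝ) (β : ℝ), 0 ≤ β → Good A l →
      D (push Prod.snd l) ≤ mass l / (a / 4) →
      mass l * D (push Prod.fst l) ≤ 256 / (a / 4) * β ^ 2 →
      ∃ g e : (ι → Bool) → ℝ, (∀ z, 0 ≤ g z) ∧ (∀ z, 0 ≤ e z) ∧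
        (PL A ^ (r * ((j1 + C2) * Fintype.card ι))) (push Prod.fst l) = g + e ∧
        D g ≤ 256 / (a / 4) * mass g ∧ mass e ≤ (1 - a / 4 / 8) ^ r * β := by
  have hp : 0 < a / 4 := by positivity
  have hγ : 0 ≤ 1 - a / 4 / 8 := by linarith
  have hL : 0 < 256 / (a / 4) := by positivity
  have small : ∀ (r : ℕ) (l : (ι → Bool) × (ι → Bool) → ℝ) (β : ℝ), 0 ≤ β → Good A l →
      D (push Prod.fst l) ≤ 256 / (a / 4) * mass l →
      ∃ g e : (ι → Bool) → ℝ, (∀ z, 0 ≤ g z) ∧ (∀ z, 0 ≤ e z) ∧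
        (PL A ^ (r * ((j1 + C2) * Fintype.card ι))) (push Prod.fst l) = g + e ∧
        D g ≤ 256 / (a / 4) * mass g ∧ mass e ≤ (1 - a / 4 / 8) ^ r * β := by
    intro r l β hβ h hd
    refine ⟨_, 0, PLp_nonneg A (push_nonneg _ h.1) _, fun _ => le_rfl, (add_zero _).symm, ?_, ?_⟩
    · rw [mass_PLp, mass_push]
      exact (D_PLp_le A (push_nonneg _ h.1) _).trans hd
    · rw [mass_zero]; positivity
  induction r with
  | zero =>
    intro l β hβ h _ hb
    by_cases hd : D (push Prod.fst l) ≤ 256 / (a / 4) * mass l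
    · exact small 0 l β hβ h hd
    push Not at hd
    have hM := mass_nonneg h.1
    refine ⟨0, push Prod.fst l, fun _ => le_rfl, push_nonneg _ h.1, by simp, ?_, ?_⟩
    · rw [D_zero, mass_zero, mul_zero]
    · rw [mass_push, pow_zero, one_mul]
      have h1 : 256 / (a / 4) * mass l ^ 2 ≤ 256 / (a / 4) * β ^ 2 := by
        have := mul_le_mul_of_nonneg_left hd.le hM
        nlinarith
      have h2 := le_of_mul_le_mul_left h1 hL
      exact (pow_le_pow_iff_left₀ hM hβ two_ne_zero).mp h2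
  | succ r ih =>
    intro l β hβ h hD hb
    by_cases hd : D (push Prod.fst l) ≤ 256 / (a / 4) * mass l
    · exact small _ l β hβ h hd
    push Not at hd
    have hM := mass_nonneg h.1
    obtain ⟨l1, l2, g1, g2, hsum, m1, m2, f1, f2, s1, s2⟩ := one_round hA ha ha1 haA hj1 hC2 h hD
    set p := a / 4 with hpdef
    have hp1 : p ≤ 1 / 4 := by rw [hpdef]; linarith
    set d := D (push Prod.fst l) with hddef
    set M := mass l with hMdef
    have hMd : M ≤ p / 256 * d := by
      have h1 : p / 256 * (256 / p * M) = M := by field_simp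
      have h2 := mul_le_mul_of_nonneg_left hd.le (show 0 ≤ p / 256 by positivity)
      linarith
    have hd0 : 0 ≤ d := D_nonneg (push_nonneg _ h.1)
    obtain ⟨x1, e1, hx1, he1, hq1, hDx1, hme1⟩ := ih l1 (p / 8 * β) (by positivity) g1
      (by rw [m1, mul_div_cancel_left₀ _ hp.ne']; exact s1) (by
        rw [m1]
        have h1 : D (push Prod.fst l1) ≤ p / 64 * d := by linarith
        have h2 : p * M * D (push Prod.fst l1) ≤ p * M * (p / 64 * d) :=
          mul_le_mul_of_nonneg_left h1 (by positivity)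
        have h3 : (p / 8) ^ 2 * (M * d) ≤ (p / 8) ^ 2 * (256 / p * β ^ 2) :=
          mul_le_mul_of_nonneg_left hb (by positivity)
        have h4 : p * M * (p / 64 * d) = (p / 8) ^ 2 * (M * d) := by ring
        have h5 : (p / 8) ^ 2 * (256 / p * β ^ 2) = 256 / p * (p / 8 * β) ^ 2 := by ring
        linarith)
    obtain ⟨x2, e2, hx2, he2, hq2, hDx2, hme2⟩ := ih l2 ((1 - p / 4) * β)
      (mul_nonneg (by linarith) hβ) g2
      (by
        rw [m2, le_div_iff₀ hp]
        have := mul_le_mul_of_nonneg_right s2 hp.le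
        nlinarith) (by
        rw [m2]
        have h1 : D (push Prod.fst l2) ≤ (1 + p / 256) * d := by linarith
        have h2 : (1 - p) * M * D (push Prod.fst l2) ≤ (1 - p) * M * ((1 + p / 256) * d) :=
          mul_le_mul_of_nonneg_left h1 (mul_nonneg (by linarith) hM)
        have h3 : (1 - p / 4) ^ 2 * (M * d) ≤ (1 - p / 4) ^ 2 * (256 / p * β ^ 2) :=
          mul_le_mul_of_nonneg_left hb (by positivity)
        have h4 : (1 - p) * (1 + p / 256) ≤ (1 - p / 4) ^ 2 := by nlinarith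
        have h5 : (1 - p / 4) ^ 2 * (256 / p * β ^ 2) = 256 / p * ((1 - p / 4) * β) ^ 2 := by ring
        have h6 := mul_le_mul_of_nonneg_right h4 (mul_nonneg hM hd0)
        have h7 : (1 - p) * M * ((1 + p / 256) * d) = (1 - p) * (1 + p / 256) * (M * d) := by ring
        linarith)
    refine ⟨x1 + x2, e1 + e2, fun z => add_nonneg (hx1 z) (hx2 z),
      fun z => add_nonneg (he1 z) (he2 z), ?_, ?_, ?_⟩
    · rw [Nat.succ_mul, pow_add_apply, hsum, map_add, hq1, hq2]
      abel
    · rw [mass_add, mul_add]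
      linarith [D_add_le hx1 hx2]
    · rw [mass_add, pow_succ]
      have e : (1 - p / 8) ^ r * (1 - p / 8) * β =
          (1 - p / 8) ^ r * (p / 8 * β) + (1 - p / 8) ^ r * ((1 - p / 4) * β) := by ring
      linarith

lemma mass_single {α : Type*} [Fintype α] [DecidableEq α] (x : α) :
    mass (Pi.single x (1 : ℝ) : α → ℝ) = 1 := by
  simp [mass]

lemma push_single {α β : Type*} [Fintype α] [Fintype β] [DecidableEq α] [DecidableEq β]
    (f : α → β) (x : α) :
    push f (Pi.single x (1 : ℝ) : α → ℝ) = Pi.single (f x) 1 := by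
  funext z
  rw [push_apply, Finset.sum_eq_single x]
  · by_cases h : f x = z
    · subst h; simp
    · simp [h, Ne.symm h]
  · intro w _ hw
    simp [hw]
  · simp

lemma single_nonneg' {α : Type*} [DecidableEq α] (x z : α) :
    0 ≤ (Pi.single x (1 : ℝ) : α → ℝ) z := by
  rw [Pi.single_apply]; split_ifs <;> norm_num

lemma D_single_le (x : ι → Bool) :
    D (Pi.single x (1 : ℝ) : (ι → Bool) → ℝ) ≤ Fintype.card ι := by
  have h := D_le (single_nonneg' x)
  rw [mass_single, one_mul, Fintype.card_fun, Fintype.card_bool] at h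
  push_cast at h
  rw [Real.log_pow] at h
  have := log_two_le
  have hn := card_pos' (ι := ι)
  nlinarith

/-- The mixing estimate with explicit parameters. -/
lemma mix_param {A : Finset (ι → Bool)} (hA : Up A) {a : ℝ} (ha : 0 < a) (ha1 : a ≤ 1)
    (haA : a ≤ (A.card : ℝ) / Fintype.card (ι → Bool))
    {j0 j1 C2 C3 r0 : ℕ} (hj0 : (Fintype.card ι : ℝ) ≤ 2 ^ j0)
    (hj1 : 1 / (2 : ℝ) ^ j1 ≤ (a / 4) ^ 2) (hC2 : 128 / (a / 4) ≤ (C2 : ℝ))
    (hr0 : (1 - a / 4 / 8) ^ r0 ≤ 1 / 2) (hC3 : 256 / (a / 4) * 2 ^ 23 / a ^ 2 ≤ (C3 : ℝ))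
    {x : ι → Bool} (hx : x ∈ A) :
    ∑ z, |(PL A ^ (C3 * Fintype.card ι + (r0 * (j0 + 4) * ((j1 + C2) * Fintype.card ι)
      + j0 * Fintype.card ι))) (Pi.single x 1) z - unif A (1 / A.card) z| ≤ 1 / 2 := by
  have hn := card_pos' (ι := ι)
  have hn1 : (1 : ℝ) ≤ Fintype.card ι := by exact_mod_cast Fintype.card_pos
  have hp : 0 < a / 4 := by positivity
  have hAc : (0 : ℝ) < A.card := by exact_mod_cast Finset.card_pos.mpr ⟨x, hx⟩
  have h0 : Good A (Pi.single (x, x) (1 : ℝ)) := by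
    refine ⟨single_nonneg' _, fun w hw => ?_⟩
    by_cases h : w = (x, x)
    · subst h; exact ⟨hx, le_rfl⟩
    · simp [h] at hw
  set n := Fintype.card ι with hndef
  set l := (KL A ^ (j0 * n)) (Pi.single (x, x) (1 : ℝ)) with hl
  have hlg : Good A l := h0.KLp hA _
  have hlm : mass l = 1 := by rw [hl, mass_KLp, mass_single]
  have hlf : push Prod.fst l = (PL A ^ (j0 * n)) (Pi.single x 1) := by
    rw [hl, fst_KLp hA h0, push_single]
  have hls : D (push Prod.snd l) ≤ mass l / (a / 4) := by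
    rw [hl, snd_KLp, push_single, ← hl, hlm]
    refine (free_halves (single_nonneg' _) j0).trans ?_
    have h1 : D (Pi.single x (1 : ℝ) : (ι → Bool) → ℝ) / 2 ^ j0 ≤ 1 := by
      rw [div_le_one (by positivity)]
      exact (D_single_le x).trans hj0
    refine h1.trans ?_
    rw [le_div_iff₀ hp]; linarith
  have hL1 : 1 ≤ 256 / (a / 4) := by rw [le_div_iff₀ hp]; linarith
  obtain ⟨g, e, hg, he, hq, hDg, hme⟩ := rounds hA ha ha1 haA hj1 hC2 (r0 * (j0 + 4)) l n hn.le hlg
    hls (by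
      rw [hlm, one_mul, hlf]
      have h1 := (D_PLp_le A (single_nonneg' x) (j0 * n)).trans (D_single_le x)
      have h2 : (n : ℝ) ≤ n ^ 2 := by nlinarith
      have h3 : (n : ℝ) ^ 2 ≤ 256 / (a / 4) * n ^ 2 := by nlinarith
      linarith)
  have hme' : mass e ≤ 1 / 16 := by
    have h1 : (1 - a / 4 / 8) ^ (r0 * (j0 + 4)) ≤ (1 / 2) ^ (j0 + 4) := by
      rw [pow_mul]
      exact pow_le_pow_left₀ (pow_nonneg (by linarith) _) hr0 _
    have h2 : ((1 : ℝ) / 2) ^ (j0 + 4) * 2 ^ j0 = 1 / 16 := by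
      rw [pow_add, mul_right_comm, ← mul_pow]; norm_num
    have h3 : (1 - a / 4 / 8) ^ (r0 * (j0 + 4)) * n ≤ (1 / 2) ^ (j0 + 4) * 2 ^ j0 :=
      mul_le_mul h1 hj0 hn.le (by positivity)
    linarith
  have hsum : mass g + mass e = 1 := by
    rw [← mass_add, ← hq, mass_PLp, mass_push, hlm]
  have hgA : ∀ z, z ∉ A → g z = 0 := by
    intro z hz
    have h1 := PLp_supp A hlg.fst_supp (r0 * (j0 + 4) * ((j1 + C2) * n)) z hz
    rw [hq, Pi.add_apply] at h1
    linarith [hg z, he z]
  have hC3pos : (0 : ℝ) < C3 := lt_of_lt_of_le (by positivity) hC3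
  have hT : 0 < C3 * n := Nat.mul_pos (by exact_mod_cast hC3pos) Fintype.card_pos
  obtain ⟨s, hs, hdrop⟩ := exists_small_drop A (ν := g) hT
  have hMg := mass_nonneg hg
  have hMe := mass_nonneg he
  have hcl := close hA ha haA (PLp_nonneg A hg s) (PLp_supp A hgA s) (by
    rw [mass_PLp]
    have h1 := D_nonneg (PLp_nonneg A hg (C3 * n))
    have h2 : (C3 : ℝ) * (n * (D ((PL A ^ s) g) - D (PL A ((PL A ^ s) g)))) ≤
        256 / (a / 4) * mass g := by
      push_cast at hdrop
      linarith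
    have h3 : 256 / (a / 4) ≤ C3 * (a ^ 2 / 2 ^ 23) := by
      rw [div_le_iff₀ (by positivity)] at hC3
      rw [← mul_div_assoc, le_div_iff₀ (by positivity)]
      exact hC3
    have h4 := mul_le_mul_of_nonneg_right h3 hMg
    by_contra hc
    push Not at hc
    have h5 := mul_lt_mul_of_pos_left hc hC3pos
    nlinarith)
  rw [mass_PLp] at hcl
  rw [pow_add_apply, pow_add_apply, ← hlf, hq]
  have key : (PL A ^ (C3 * n)) (g + e) - unif A (1 / A.card) =
      (PL A ^ (C3 * n - s)) ((PL A ^ s) g - unif A (mass g / A.card)) +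
        ((PL A ^ (C3 * n)) e - unif A (mass e / A.card)) := by
    rw [map_sub, map_add, PLp_unif, ← pow_add_apply, Nat.sub_add_cancel hs.le]
    have : unif A (1 / A.card) = unif A (mass g / A.card) + unif A (mass e / A.card) := by
      funext z
      simp only [unif, Pi.add_apply]
      split_ifs
      · rw [← add_div, hsum]
      · simp
    rw [this]; abel
  have h1 := l1_PLp A ((PL A ^ s) g - unif A (mass g / A.card)) (C3 * n - s)
  have h2 : ∑ z, |((PL A ^ (C3 * n)) e - unif A (mass e / A.card)) z| ≤ 2 * mass e := by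
    have h3 : ∀ z, |((PL A ^ (C3 * n)) e - unif A (mass e / A.card)) z| ≤
        (PL A ^ (C3 * n)) e z + unif A (mass e / A.card) z := by
      intro z
      have h4 := PLp_nonneg A he (C3 * n) z
      have h5 : 0 ≤ unif A (mass e / A.card) z := by
        unfold unif; split_ifs
        · positivity
        · exact le_rfl
      rw [Pi.sub_apply, abs_le]
      constructor <;> linarith
    refine (Finset.sum_le_sum fun z _ => h3 z).trans ?_
    rw [Finset.sum_add_distrib]
    have h6 := mass_PLp A e (C3 * n)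
    have h7 := mass_unif A (mass e / A.card)
    rw [mul_div_cancel₀ _ hAc.ne'] at h7
    unfold mass at *
    linarith
  have h8 : ∑ z, |(PL A ^ (C3 * n)) (g + e) z - unif A (1 / A.card) z| ≤
      ∑ z, |(PL A ^ (C3 * n - s)) ((PL A ^ s) g - unif A (mass g / A.card)) z| +
        ∑ z, |((PL A ^ (C3 * n)) e - unif A (mass e / A.card)) z| := by
    rw [← Finset.sum_add_distrib]
    refine Finset.sum_le_sum fun z _ => ?_
    have := congrFun key z
    rw [Pi.sub_apply, Pi.add_apply] at this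
    rw [this]
    exact abs_add_le _ _
  simp only [Pi.sub_apply] at h1 h2 h8
  linarith

lemma clog_le {n : ℕ} (hn : 2 ≤ n) : (Nat.clog 2 n : ℝ) ≤ 3 * log n := by
  have h1 := Nat.pow_pred_clog_lt_self (b := 2) (by norm_num) (x := n) (by omega)
  have h2 : 0 < Nat.clog 2 n := Nat.clog_pos (by norm_num) (by omega)
  have h3 : (2 : ℝ) ^ (Nat.clog 2 n - 1) ≤ n := by exact_mod_cast h1.le
  have h4 := Real.log_le_log (by positivity) h3
  rw [Real.log_pow, Nat.cast_sub h2] at h4
  have h5 : log 2 ≤ log (n : ℝ) := Real.log_le_log (by norm_num) (by exact_mod_cast hn)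
  have h6 := Real.log_two_gt_d9
  have h7 : (0 : ℝ) ≤ Nat.clog 2 n := Nat.cast_nonneg _
  push_cast at h4
  nlinarith

/-- Mixing in `O(a⁻³ n log n)` steps for monotone sets of density at least `a`. -/
theorem mix {a : ℝ} (ha : 0 < a) {n : ℕ} (hn : 2 ≤ n) {A : Finset (Fin n → Bool)} (hA : Up A)
    (haA : a ≤ (A.card : ℝ) / 2 ^ n) : ∃ t : ℕ, (t : ℝ) ≤ 2 ^ 36 * n * log n / a ^ 3 ∧
      ∀ x ∈ A, ∑ z, |(PL A ^ t) (Pi.single x 1) z - unif A (1 / A.card) z| ≤ 1 / 2 := by
  have : Nonempty (Fin n) := ⟨⟨0, by omega⟩⟩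
  have hcard : (Fintype.card (Fin n → Bool) : ℝ) = 2 ^ n := by simp
  have ha1 : a ≤ 1 := haA.trans (by
    rw [div_le_one (by positivity), ← hcard]; exact_mod_cast A.card_le_univ)
  obtain ⟨m, hm1, hm2⟩ : ∃ m : ℕ, 4 / a ≤ m ∧ (m : ℝ) ≤ 5 / a := by
    refine ⟨⌈4 / a⌉₊, Nat.le_ceil _, (Nat.ceil_lt_add_one (by positivity)).le.trans ?_⟩
    have h1 : 1 ≤ 1 / a := by rw [le_div_iff₀ ha]; linarith
    have h2 : 5 / a = 4 / a + 1 / a := by ring
    linarith
  have hma : 4 ≤ m * a := by rwa [div_le_iff₀ ha] at hm1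
  have hm4 : (1 : ℝ) ≤ m := by nlinarith
  refine ⟨2 ^ 27 * m ^ 3 * n + (8 * m * (Nat.clog 2 n + 4) * ((2 * m + 128 * m) * n) +
    Nat.clog 2 n * n), ?_, fun x hx => ?_⟩
  · have h1 := clog_le hn
    have h2 : (1 : ℝ) ≤ Nat.clog 2 n := by
      exact_mod_cast Nat.clog_pos (by norm_num) (by omega)
    push_cast
    set j : ℝ := (Nat.clog 2 n : ℝ)
    have hn0 : (0 : ℝ) ≤ n := Nat.cast_nonneg _
    have hm3 : (m : ℝ) ^ 3 ≤ 125 / a ^ 3 := by
      have := pow_le_pow_left₀ (by positivity) hm2 3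
      rw [div_pow] at this; norm_num at this; exact this
    have hm23 : (m : ℝ) ^ 2 ≤ m ^ 3 := pow_le_pow_right₀ hm4 (by norm_num)
    have hm03 : (1 : ℝ) ≤ m ^ 3 := one_le_pow₀ hm4
    have h3 : (134217728 : ℝ) * m ^ 3 * n ≤ 134217728 * m ^ 3 * n * j :=
      le_mul_of_one_le_right (by positivity) h2
    have h4 : (8 : ℝ) * m * (j + 4) * ((2 * m + 128 * m) * n) ≤ 5200 * m ^ 3 * n * j := by
      have h5 : (8 : ℝ) * m * (j + 4) * ((2 * m + 128 * m) * n) ≤
          8 * m * (5 * j) * ((2 * m + 128 * m) * n) := by gcongr; linarith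
      have h6 : (8 : ℝ) * m * (5 * j) * ((2 * m + 128 * m) * n) = 5200 * m ^ 2 * n * j := by ring
      have h7 : (5200 : ℝ) * m ^ 2 * n * j ≤ 5200 * m ^ 3 * n * j := by gcongr
      linarith
    have h5 : j * n ≤ m ^ 3 * n * j := by
      have := mul_le_mul_of_nonneg_right hm03 (mul_nonneg hn0 (by linarith : 0 ≤ j))
      linarith
    have hlog : 0 ≤ log (n : ℝ) := by linarith
    have h6 : (m : ℝ) ^ 3 * n * j ≤ 125 / a ^ 3 * n * (3 * log n) := by gcongr
    have h7 : 125 / a ^ 3 * n * (3 * log n) = 375 * (n * log n / a ^ 3) := by ring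
    have h8 : 2 ^ 36 * n * log n / a ^ 3 = 2 ^ 36 * (n * log n / a ^ 3) := by ring
    have h9 : 0 ≤ n * log n / a ^ 3 := by positivity
    rw [h8]
    linarith
  · have := mix_param (ι := Fin n) (j0 := Nat.clog 2 n) (j1 := 2 * m) (C2 := 128 * m)
      (C3 := 2 ^ 27 * m ^ 3) (r0 := 8 * m) hA ha ha1 (by rw [hcard]; exact haA)
      (by rw [Fintype.card_fin]; exact_mod_cast Nat.le_pow_clog (by norm_num) n)
      (by
        have h1 : (m : ℝ) ≤ 2 ^ m := by exact_mod_cast Nat.lt_two_pow_self.le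
        have h2 : 1 / (2 : ℝ) ^ m ≤ a / 4 := by
          rw [div_le_div_iff₀ (by positivity) (by norm_num)]
          nlinarith
        rw [mul_comm 2 m, pow_mul, ← one_pow 2, ← div_pow]
        exact pow_le_pow_left₀ (by positivity) h2 2)
      (by
        push_cast
        rw [div_le_iff₀ (by positivity)]
        linarith)
      (by
        have h3 : 1 - a / 4 / 8 ≤ exp (-(a / 4 / 8)) := by
          have := Real.add_one_le_exp (-(a / 4 / 8)); linarith
        have h4 := pow_le_pow_left₀ (by linarith) h3 (8 * m)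
        rw [← Real.exp_nat_mul] at h4
        have h5 : exp (((8 * m : ℕ) : ℝ) * -(a / 4 / 8)) ≤ exp (-1) := by
          apply Real.exp_le_exp.mpr
          push_cast
          linarith
        have h6 : exp (-1 : ℝ) ≤ 1 / 2 := by
          rw [Real.exp_neg, ← one_div]
          apply one_div_le_one_div_of_le (by norm_num)
          have := Real.add_one_le_exp (1 : ℝ); linarith
        linarith)
      (by
        push_cast
        have h1 := pow_le_pow_left₀ (by positivity) hm1 3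
        have h2 : 256 / (a / 4) * 2 ^ 23 / a ^ 2 = 134217728 * (4 / a) ^ 3 := by
          field_simp; norm_num
        rw [h2]
        linarith) hx
    simpa only [Fintype.card_fin] using this

end Pool.Agent.H93Z.Cens
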